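import Pool.Agent.Q308.TW.Lin

/-!
For almost all integer combinations `D` of a spanning family over a finitely generated field, the
irreducible polynomials of a given finite set are independent modulo constants and `ℓ`-th powers in
`k[X] / (D)`.
-/

set_option autoImplicit false

open Polynomial Pool.Agent.Q126.TD Pool.Agent.Q308.TC Filter Topology

namespace Pool.Agent.Q308.TW

variable {κ : Type} [Fintype κ]

theorem FG.finite {k L : Type} [Field k] [Field L] [Algebra k L] [FiniteDimensional k L]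
    (h : FG k) : FG L := by
  classical
  obtain ⟨s, hs⟩ := h
  set B := Module.finBasis k L with hB
  refine ⟨s.image (algebraMap k L) ∪ Finset.univ.image B, ?_⟩
  set F := Subfield.closure ((s.image (algebraMap k L) ∪ Finset.univ.image B : Finset L) : Set L)
    with hF
  have h1 : ∀ x : k, algebraMap k L x ∈ F := by
    intro x
    have h2 : (Subfield.closure (s : Set k)).map (algebraMap k L) ≤ F := by
      rw [RingHom.map_field_closure]
      apply Subfield.closure_mono
      rw [Finset.coe_union, Finset.coe_image]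
      exact Set.subset_union_left
    apply h2
    rw [Subfield.mem_map]
    exact ⟨x, by rw [hs]; trivial, rfl⟩
  have h2 : ∀ i, B i ∈ F := by
    intro i
    apply Subfield.subset_closure
    rw [Finset.coe_union, Finset.coe_image, Finset.coe_image]
    exact Or.inr ⟨i, by simp, rfl⟩
  rw [eq_top_iff]
  intro x _
  rw [← B.sum_repr x]
  refine sum_mem fun i _ => ?_
  rw [Algebra.smul_def]
  exact mul_mem (h1 _) (h2 i)

section prod

variable {k L : Type} [Field k] [CharZero k] [Field L] [Algebra k L]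

/-- the exponent of a root -/
noncomputable def ex (T : Finset k[X]) (e : k[X] → ℕ) (r : L) : ℕ :=
  open scoped Classical in ∑ π ∈ T, if (π.map (algebraMap k L)).IsRoot r then e π else 0

open scoped Classical in
theorem prod_ex (T : Finset k[X]) (hT : ∀ π ∈ T, Irreducible π ∧ π.Monic)
    (hs : ((∏ π ∈ T, π).map (algebraMap k L)).Splits) (e : k[X] → ℕ) :
    ∏ r ∈ ((∏ π ∈ T, π).map (algebraMap k L)).roots.toFinset, (X - C r) ^ ex T e r =
      (∏ π ∈ T, π ^ e π).map (algebraMap k L) := by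
  set P := ∏ π ∈ T, π with hP
  have hP0 : P ≠ 0 := Finset.prod_ne_zero_iff.2 fun π hπ => (hT π hπ).1.ne_zero
  have hPL0 : P.map (algebraMap k L) ≠ 0 := (Polynomial.map_ne_zero_iff (algebraMap k L).injective).2 hP0
  set R := (P.map (algebraMap k L)).roots.toFinset with hR
  have h2 : ∀ r : L, (X - C r) ^ ex T e r =
      ∏ π ∈ T, (if (π.map (algebraMap k L)).IsRoot r then (X - C r) else 1) ^ e π := by
    intro r
    unfold ex
    rw [← Finset.prod_pow_eq_pow_sum]
    refine Finset.prod_congr rfl fun π _ => ?_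
    split_ifs
    · rfl
    · rw [pow_zero, one_pow]
  simp_rw [h2]
  rw [Finset.prod_comm, Polynomial.map_prod]
  refine Finset.prod_congr rfl fun π hπ => ?_
  rw [Finset.prod_pow, Polynomial.map_pow]
  congr 1
  rw [← Finset.prod_filter]
  have hdvd : π.map (algebraMap k L) ∣ P.map (algebraMap k L) :=
    Polynomial.map_dvd _ (Finset.dvd_prod_of_mem _ hπ)
  have hπs : (π.map (algebraMap k L)).Splits := hs.of_dvd hPL0 hdvd
  have hπm : (π.map (algebraMap k L)).Monic := (hT π hπ).2.map _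
  have hπ0 : π.map (algebraMap k L) ≠ 0 := hπm.ne_zero
  have hnd : (π.map (algebraMap k L)).roots.Nodup :=
    nodup_roots ((hT π hπ).1.separable.map)
  have hfil : R.filter (fun r => (π.map (algebraMap k L)).IsRoot r) =
      (π.map (algebraMap k L)).roots.toFinset := by
    ext r
    rw [Finset.mem_filter, hR, Multiset.mem_toFinset, Multiset.mem_toFinset, mem_roots hPL0,
      mem_roots hπ0]
    constructor
    · exact fun h => h.2
    · exact fun h => ⟨h.dvd hdvd, h⟩
  rw [hfil]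
  conv_rhs => rw [hπs.eq_prod_roots, hπm.leadingCoeff, C_1, one_mul]
  rw [Finset.prod_multiset_map_count]
  refine Finset.prod_congr rfl fun r hr => ?_
  rw [Multiset.count_eq_one_of_mem hnd (Multiset.mem_toFinset.1 hr), pow_one]

theorem ex_root (T : Finset k[X]) (hT : ∀ π ∈ T, Irreducible π ∧ π.Monic) (e : k[X] → ℕ) {π : k[X]}
    (hπ : π ∈ T) {r : L} (hr : (π.map (algebraMap k L)).IsRoot r) : ex T e r = e π := by
  classical
  unfold ex
  rw [Finset.sum_eq_single π]
  · rw [if_pos hr]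
  · intro π' hπ' hne
    rw [if_neg]
    intro hr'
    apply hne
    have hco : IsCoprime π' π := by
      rw [← not_not (a := IsCoprime π' π)]
      intro h
      have h1 := ((hT π' hπ').1.coprime_iff_not_dvd).not.1 (by simpa using h)
      rw [not_not] at h1
      exact h (absurd (eq_of_monic_of_associated (hT π' hπ').2 (hT π hπ).2
        ((hT π' hπ').1.associated_of_dvd (hT π hπ).1 h1)) hne)
    obtain ⟨u, w, huw⟩ := hco
    exfalso
    have h2 := congrArg (fun f : k[X] => (f.map (algebraMap k L)).eval r) huw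
    simp only [Polynomial.map_add, Polynomial.map_mul, eval_add, eval_mul, Polynomial.map_one,
      eval_one] at h2
    rw [hr', hr, mul_zero, mul_zero, add_zero] at h2
    exact zero_ne_one h2
  · intro h
    exact absurd hπ h

end prod

section main

variable {k : Type} [Field k] [CharZero k]

theorem comb_map {L : Type} [Field L] (φ : k →+* L) (b : κ → k[X]) (v : κ → ℤ) :
    comb (fun i => (b i).map φ) v = (comb b v).map φ := by
  unfold comb
  rw [Polynomial.map_sum]
  refine Finset.sum_congr rfl fun i _ => ?_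
  rw [Polynomial.map_mul, map_C, map_intCast φ]

theorem spans_map {L : Type} [Field L] (φ : k →+* L) {m : ℕ} {b : κ → k[X]} (hb : Spans m b) :
    Spans m (fun i => (b i).map φ) := by
  refine ⟨fun i => natDegree_map_le.trans (hb.1 i), fun j => ?_⟩
  obtain ⟨c, hc⟩ := hb.2 j
  refine ⟨fun i => φ (c i), ?_⟩
  have h := congrArg (Polynomial.map φ) hc
  rw [Polynomial.map_sum, Polynomial.map_pow, map_X] at h
  rw [← h]
  refine Finset.sum_congr rfl fun i _ => ?_
  rw [Polynomial.map_mul, map_C]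

/-- one vector of exponents -/
theorem one_full (hk : FG k) {ℓ : ℕ} (hℓ : ℓ.Prime) {ζ : k} (hζ : IsPrimitiveRoot ζ ℓ)
    (T : Finset k[X]) (hT : ∀ π ∈ T, Irreducible π ∧ π.Monic) {N : ℕ}
    (hN : (∏ π ∈ T, π).natDegree + 2 ≤ N) {b : κ → k[X]} (hb : Spans N b) (e : k[X] → ℕ)
    {π₀ : k[X]} (hπ₀ : π₀ ∈ T) (he : ¬ ℓ ∣ e π₀) :
    Full {v : κ → ℤ | ∀ (c : k) (z : k[X]), c ≠ 0 →
      ¬ comb b v ∣ C c * ∏ π ∈ T, π ^ e π - z ^ ℓ} := by
  classical
  set P := ∏ π ∈ T, π with hP
  have hP0 : P ≠ 0 := Finset.prod_ne_zero_iff.2 fun π hπ => (hT π hπ).1.ne_zero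
  let L := P.SplittingField
  haveI : CharZero L := charZero_of_injective_algebraMap (algebraMap k L).injective
  have hL : FG L := FG.finite hk
  have hs : (P.map (algebraMap k L)).Splits := SplittingField.splits P
  set R := (P.map (algebraMap k L)).roots.toFinset with hR
  set n := R.card with hn
  let eqv : Fin n ≃ R := (R.equivFinOfCardEq rfl).symm
  let γ : Fin n → L := fun i => (eqv i : L)
  have hγ : Function.Injective γ := Subtype.val_injective.comp eqv.injective
  have hPL0 : P.map (algebraMap k L) ≠ 0 := (Polynomial.map_ne_zero_iff (algebraMap k L).injective).2 hP0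
  have hnN : n ≤ P.natDegree := by
    refine (Multiset.toFinset_card_le _).trans ((card_roots' _).trans ?_)
    rw [natDegree_map]
  -- a root of `π₀`
  have hdvd : π₀.map (algebraMap k L) ∣ P.map (algebraMap k L) :=
    Polynomial.map_dvd _ (Finset.dvd_prod_of_mem _ hπ₀)
  have hπs : (π₀.map (algebraMap k L)).Splits := hs.of_dvd hPL0 hdvd
  obtain ⟨r, hr⟩ : ∃ r, (π₀.map (algebraMap k L)).IsRoot r := by
    have h1 : (π₀.map (algebraMap k L)).degree ≠ 0 := by
      rw [degree_map]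
      exact ne_of_gt (degree_pos_of_irreducible (hT π₀ hπ₀).1)
    obtain ⟨r, hr⟩ := hπs.exists_eval_eq_zero h1
    exact ⟨r, hr⟩
  have hrR : r ∈ R := by
    rw [hR, Multiset.mem_toFinset, mem_roots hPL0]
    exact hr.dvd hdvd
  have hex : ¬ ℓ ∣ ex T e (γ (eqv.symm ⟨r, hrR⟩)) := by
    have h1 : γ (eqv.symm ⟨r, hrR⟩) = r := by
      show ((eqv (eqv.symm ⟨r, hrR⟩) : R) : L) = r
      rw [Equiv.apply_symm_apply]
    rw [h1, ex_root T hT e hπ₀ hr]
    exact he
  obtain ⟨M, rfl⟩ : ∃ M, N = M + 1 := ⟨N - 1, by omega⟩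
  have h1 := lin_full (κ := κ) hL hℓ (hζ.map_of_injective (algebraMap k L).injective) hγ
    (a := fun i => ex T e (γ i)) hex (M := M) (by omega) (spans_map (algebraMap k L) hb)
  refine h1.mono ?_
  intro v hv c z hc hd
  set s := ∑ i, ex T e (γ i) with hs'
  have h2 : ∏ i, (C (γ i) - X) ^ ex T e (γ i) =
      C ((-1) ^ s) * (∏ π ∈ T, π ^ e π).map (algebraMap k L) := by
    rw [← prod_ex T hT hs e]
    have h30 : ∏ i, (X - C (γ i)) ^ ex T e (γ i) = ∏ r ∈ R, (X - C r) ^ ex T e r := by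
      rw [← Finset.prod_coe_sort R, ← Equiv.prod_comp eqv]
    rw [← h30]
    have h3 : ∀ i, (C (γ i) - X) ^ ex T e (γ i) =
        (-1 : L[X]) ^ ex T e (γ i) * (X - C (γ i)) ^ ex T e (γ i) := by
      intro i
      rw [← mul_pow]
      congr 1
      ring
    simp_rw [h3]
    rw [Finset.prod_mul_distrib, Finset.prod_pow_eq_pow_sum, ← hs', C_pow, C_neg, C_1]
  refine hv ((-1) ^ s * algebraMap k L c) (z.map (algebraMap k L))
    (mul_ne_zero (pow_ne_zero _ (neg_ne_zero.2 one_ne_zero)) ((_root_.map_ne_zero _).2 hc)) ?_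
  rw [h2, comb_map]
  have h4 := Polynomial.map_dvd (algebraMap k L) hd
  rw [Polynomial.map_sub, Polynomial.map_mul, map_C, Polynomial.map_pow] at h4
  have h5 : C ((-1) ^ s * algebraMap k L c) *
      (C ((-1) ^ s) * (∏ π ∈ T, π ^ e π).map (algebraMap k L)) =
      C (algebraMap k L c) * (∏ π ∈ T, π ^ e π).map (algebraMap k L) := by
    rw [← mul_assoc, ← C_mul]
    congr 2
    have h6 : ((-1 : L) ^ s) * (-1) ^ s = 1 := by
      rw [← mul_pow, neg_one_mul, neg_neg, one_pow]
    linear_combination (algebraMap k L c) * h6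
  rw [h5]
  exact h4

/-- **Almost all `D` are good for the twist.** -/
theorem twist_full (hk : FG k) {ℓ : ℕ} (hℓ : ℓ.Prime) {ζ : k} (hζ : IsPrimitiveRoot ζ ℓ)
    (T : Finset k[X]) (hT : ∀ π ∈ T, Irreducible π ∧ π.Monic) {N : ℕ}
    (hN : (∏ π ∈ T, π).natDegree + 2 ≤ N) {b : κ → k[X]} (hb : Spans N b) :
    Full {v : κ → ℤ | Irreducible (comb b v) ∧ (comb b v).natDegree = N ∧
      (∀ π ∈ T, ¬ comb b v ∣ π) ∧
      ∀ (c : k) (e : k[X] → ℕ) (z : k[X]), c ≠ 0 →
        comb b v ∣ C c * ∏ π ∈ T, π ^ e π - z ^ ℓ → ∀ π ∈ T, ℓ ∣ e π} := by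
  classical
  have h1 := span_full hk (by omega : 0 < N) hb (irreducible_X (R := k))
  let E : Finset (T → Fin ℓ) := Finset.univ.filter fun r => ∃ π, (r π : ℕ) ≠ 0
  let S : (T → Fin ℓ) → Set (κ → ℤ) := fun r => {v | ∀ (c : k) (z : k[X]), c ≠ 0 →
      ¬ comb b v ∣ C c * ∏ π ∈ T, π ^ (if h : π ∈ T then (r ⟨π, h⟩ : ℕ) else 0) - z ^ ℓ}
  have h0 : ∀ r ∈ E, Full (S r) := by
    intro r hr
    obtain ⟨-, ⟨π₀, hπ₀⟩, h2⟩ := Finset.mem_filter.1 hr
    refine one_full hk hℓ hζ T hT hN hb _ hπ₀ ?_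
    rw [dif_pos hπ₀]
    intro h3
    exact h2 (Nat.eq_zero_of_dvd_of_lt h3 (r _).2)
  have h2 := full_biInter E S h0
  refine (h1.inter h2).mono ?_
  rintro v ⟨⟨hv1, hv2⟩, hv3⟩
  rw [X_comp] at hv1
  have hv3' : ∀ r ∈ E, v ∈ S r := hv3
  have hDT : ∀ π ∈ T, ¬ comb b v ∣ π := by
    intro π hπ hd
    have h3 := natDegree_le_of_dvd hd (hT π hπ).1.ne_zero
    have h4 := natDegree_le_of_dvd (Finset.dvd_prod_of_mem (fun π : k[X] => π) hπ)
      (Finset.prod_ne_zero_iff.2 fun π hπ => (hT π hπ).1.ne_zero)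
    omega
  refine ⟨hv1, hv2, hDT, ?_⟩
  intro c e z hc hd π₀ hπ₀
  by_contra hnd
  let r : T → Fin ℓ := fun π => ⟨e π % ℓ, Nat.mod_lt _ hℓ.pos⟩
  have hrE : r ∈ E := by
    refine Finset.mem_filter.2 ⟨Finset.mem_univ _, ⟨π₀, hπ₀⟩, ?_⟩
    show e π₀ % ℓ ≠ 0
    exact fun h => hnd (Nat.dvd_of_mod_eq_zero h)
  -- the inverse of the `ℓ`-th power
  set W := ∏ π ∈ T, π ^ (e π / ℓ) with hW
  have hWD : ¬ comb b v ∣ W := by
    intro h3
    obtain ⟨π, hπ, h4⟩ := (Prime.dvd_finsetProd_iff hv1.prime _).1 h3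
    exact hDT π hπ (hv1.prime.dvd_of_dvd_pow h4)
  obtain ⟨s, V, hsV⟩ := (hv1.coprime_iff_not_dvd).2 hWD
  refine hv3' r hrE c (z * V) hc ?_
  set P' := ∏ π ∈ T, π ^ (if h : π ∈ T then ((r ⟨π, h⟩ : Fin ℓ) : ℕ) else 0) with hP'
  have h5 : ∏ π ∈ T, π ^ e π = P' * W ^ ℓ := by
    rw [hP', hW, ← Finset.prod_pow, ← Finset.prod_mul_distrib]
    refine Finset.prod_congr rfl fun π hπ => ?_
    rw [dif_pos hπ, ← pow_mul, ← pow_add]
    congr 1
    show e π = e π % ℓ + e π / ℓ * ℓ
    rw [mul_comm, Nat.mod_add_div]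
  rw [h5] at hd
  have h6 : comb b v ∣ 1 - (V * W) ^ ℓ := by
    have h7 : comb b v ∣ 1 - V * W := ⟨s, by linear_combination (-1 : k[X]) * hsV⟩
    refine h7.trans ?_
    have h8 := sub_dvd_pow_sub_pow (1 : k[X]) (V * W) ℓ
    rwa [one_pow] at h8
  have h7 : C c * P' - (z * V) ^ ℓ =
      C c * P' * (1 - (V * W) ^ ℓ) + V ^ ℓ * (C c * (P' * W ^ ℓ) - z ^ ℓ) := by
    rw [mul_pow, mul_pow]; ring
  rw [h7]
  exact dvd_add (dvd_mul_of_dvd_right h6 _) (dvd_mul_of_dvd_right hd _)

end main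

end Pool.Agent.Q308.TW
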