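import Pool.Agent.Q308.TW.Full

/-!
Almost all polynomials `D`: the cubic `g(x) + t` has no root modulo `D`.
-/

set_option autoImplicit false

open Polynomial Pool.Agent.Q126.TD Pool.Agent.Q308.TC Filter Topology

namespace Pool.Agent.Q308.TW

section count

variable {p : ℕ} [Fact p.Prime]

/-- the conic -/
theorem count_pairs {b2 b1 ω : ZMod p} (hω : ω ^ 2 + ω + 1 = 0) (h3 : (3 : ZMod p) ≠ 0) :
    p ≤ (Finset.univ.filter (fun x : ZMod p × ZMod p => x.1 ≠ x.2 ∧
      x.1 ^ 3 + b2 * x.1 ^ 2 + b1 * x.1 = x.2 ^ 3 + b2 * x.2 ^ 2 + b1 * x.2)).card + 3 := by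
  classical
  set c := b2 ^ 2 / 3 - b1 with hc
  have hω0 : ω ≠ 0 := by
    rintro rfl
    norm_num at hω
  have hω1 : ω ≠ 1 := by
    rintro rfl
    apply h3
    linear_combination hω
  have hωω : ω ^ 2 - ω ≠ 0 := by
    have h1 : ω ^ 2 - ω = ω * (ω - 1) := by ring
    rw [h1]
    exact mul_ne_zero hω0 (sub_ne_zero.2 hω1)
  set S : Finset (ZMod p) := Finset.univ.filter (fun s => s ≠ 0 ∧ s ^ 2 ≠ -ω * c) with hS
  have hSc : p ≤ S.card + 3 := by
    have h1 : (Finset.univ : Finset (ZMod p)) ⊆ S ∪ ({0} ∪ (nthRoots 2 (-ω * c)).toFinset) := by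
      intro s _
      by_cases h : s ≠ 0 ∧ s ^ 2 ≠ -ω * c
      · exact Finset.mem_union_left _ (Finset.mem_filter.2 ⟨Finset.mem_univ _, h⟩)
      · refine Finset.mem_union_right _ ?_
        by_cases h0 : s = 0
        · exact Finset.mem_union_left _ (Finset.mem_singleton.2 h0)
        · refine Finset.mem_union_right _ ?_
          rw [Multiset.mem_toFinset, mem_nthRoots (by norm_num)]
          by_contra h2
          exact h ⟨h0, h2⟩
    have h2 := (Finset.card_le_card h1).trans ((Finset.card_union_le _ _).trans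
      (Nat.add_le_add_left (Finset.card_union_le _ _) _))
    rw [Finset.card_univ, ZMod.card, Finset.card_singleton] at h2
    have h3 := (Multiset.toFinset_card_le (nthRoots 2 (-ω * c))).trans (card_nthRoots 2 _)
    omega
  let Y : ZMod p → ZMod p := fun s => (s - c / s) / (ω ^ 2 - ω)
  let X' : ZMod p → ZMod p := fun s => s + ω * Y s
  have key : S.card ≤ (Finset.univ.filter (fun x : ZMod p × ZMod p => x.1 ≠ x.2 ∧
      x.1 ^ 3 + b2 * x.1 ^ 2 + b1 * x.1 = x.2 ^ 3 + b2 * x.2 ^ 2 + b1 * x.2)).card := by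
    refine Finset.card_le_card_of_injOn (fun s => (X' s - b2 / 3, Y s - b2 / 3)) ?_ ?_
    · intro s hs
      obtain ⟨-, hs0, hs2⟩ := Finset.mem_filter.1 hs
      have hY : (ω ^ 2 - ω) * Y s = s - c / s := by
        show (ω ^ 2 - ω) * ((s - c / s) / (ω ^ 2 - ω)) = _
        field_simp
      have hX : X' s = s + ω * Y s := rfl
      have hsc : s * (c / s) = c := by field_simp
      have hq : X' s ^ 2 + X' s * Y s + Y s ^ 2 = c := by
        rw [hX]
        linear_combination (Y s ^ 2 + Y s * s) * hω - s * hY + hsc + 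
          (0 : ZMod p)
      refine Finset.mem_coe.2 (Finset.mem_filter.2 ⟨Finset.mem_univ _, ?_, ?_⟩)
      · intro he
        have he' : X' s = Y s := by
          have : X' s - b2 / 3 = Y s - b2 / 3 := he
          linear_combination this
        apply hs2
        have hs1 : s = (1 - ω) * Y s := by
          rw [hX] at he'
          linear_combination he'
        rw [he'] at hq
        linear_combination (s + (1 - ω) * Y s) * hs1 - ω * hq + (Y s) ^ 2 * hω
      · show (X' s - b2 / 3) ^ 3 + b2 * (X' s - b2 / 3) ^ 2 + b1 * (X' s - b2 / 3) =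
          (Y s - b2 / 3) ^ 3 + b2 * (Y s - b2 / 3) ^ 2 + b1 * (Y s - b2 / 3)
        obtain ⟨e, he⟩ : ∃ e, e = b2 / 3 := ⟨_, rfl⟩
        have hb : b2 = 3 * e := by rw [he]; field_simp
        have hce : c = 3 * e ^ 2 - b1 := by rw [hc, hb]; field_simp
        rw [← he]
        rw [hce] at hq
        linear_combination (X' s - Y s) * hq + (X' s - Y s) * (X' s + Y s - 2 * e) * hb
    · intro s hs s' hs' h
      have h1 : X' s = X' s' := by
        have : X' s - b2 / 3 = X' s' - b2 / 3 := congrArg Prod.fst h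
        linear_combination this
      have h2 : Y s = Y s' := by
        have : Y s - b2 / 3 = Y s' - b2 / 3 := congrArg Prod.snd h
        linear_combination this
      have h3 : X' s = s + ω * Y s := rfl
      have h4 : X' s' = s' + ω * Y s' := rfl
      rw [h1, h4, h2] at h3
      exact (add_right_cancel h3).symm
  omega

/-- the values `α` for which the cubic has no root -/
theorem count_rootless {b2 b1 b0 ω : ZMod p} (hω : ω ^ 2 + ω + 1 = 0) (h3 : (3 : ZMod p) ≠ 0) :
    p ≤ 3 * (Finset.univ.filter (fun α : ZMod p =>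
      ∀ x : ZMod p, x ^ 3 + b2 * x ^ 2 + b1 * x + b0 + α ≠ 0)).card + 3 := by
  classical
  let f : ZMod p → ZMod p := fun x => -(x ^ 3 + b2 * x ^ 2 + b1 * x + b0)
  let r : ZMod p → ℕ := fun α => (Finset.univ.filter (fun x => f x = α)).card
  have h1 : ∑ α, r α = p := by
    have := Finset.card_eq_sum_card_fiberwise (s := (Finset.univ : Finset (ZMod p)))
      (t := (Finset.univ : Finset (ZMod p))) (f := f) (fun x _ => Finset.mem_coe.2 (Finset.mem_univ _))
    rw [Finset.card_univ, ZMod.card] at this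
    exact this.symm
  have h2 : ∀ α, r α ≤ 3 := by
    intro α
    have hd : (X ^ 3 + C b2 * X ^ 2 + C b1 * X + C (b0 + α) : (ZMod p)[X]).natDegree = 3 := by
      compute_degree!
    have hne : (X ^ 3 + C b2 * X ^ 2 + C b1 * X + C (b0 + α) : (ZMod p)[X]) ≠ 0 := by
      intro h
      rw [h, natDegree_zero] at hd
      exact absurd hd (by norm_num)
    have h3 : (Finset.univ.filter (fun x => f x = α)).card ≤
        (X ^ 3 + C b2 * X ^ 2 + C b1 * X + C (b0 + α) : (ZMod p)[X]).roots.toFinset.card := by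
      apply Finset.card_le_card
      intro x hx
      have hx' := (Finset.mem_filter.1 hx).2
      rw [Multiset.mem_toFinset, mem_roots hne, IsRoot.def]
      simp only [eval_add, eval_mul, eval_pow, eval_X, eval_C]
      have hx'' : -(x ^ 3 + b2 * x ^ 2 + b1 * x + b0) = α := hx'
      linear_combination -hx''
    refine h3.trans ((Multiset.toFinset_card_le _).trans ((card_roots' _).trans ?_))
    rw [hd]
  have h4 : p ≤ (∑ α, r α * (r α - 1)) + 3 := by
    have h5 := count_pairs (b2 := b2) (b1 := b1) hω h3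
    refine h5.trans (Nat.add_le_add_right ?_ _)
    set P := Finset.univ.filter (fun x : ZMod p × ZMod p => x.1 ≠ x.2 ∧
      x.1 ^ 3 + b2 * x.1 ^ 2 + b1 * x.1 = x.2 ^ 3 + b2 * x.2 ^ 2 + b1 * x.2) with hP
    rw [Finset.card_eq_sum_card_fiberwise (s := P) (t := (Finset.univ : Finset (ZMod p)))
      (f := fun x => f x.1) (fun x _ => Finset.mem_coe.2 (Finset.mem_univ _))]
    apply Finset.sum_le_sum
    intro α _
    set A := Finset.univ.filter (fun x => f x = α) with hA
    have h6 : (P.filter (fun x => f x.1 = α)).card ≤ A.offDiag.card := by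
      apply Finset.card_le_card
      intro x hx
      obtain ⟨hx1, hx2⟩ := Finset.mem_filter.1 hx
      obtain ⟨-, hx3, hx4⟩ := Finset.mem_filter.1 hx1
      rw [Finset.mem_offDiag]
      refine ⟨Finset.mem_filter.2 ⟨Finset.mem_univ _, hx2⟩,
        Finset.mem_filter.2 ⟨Finset.mem_univ _, ?_⟩, hx3⟩
      rw [← hx2]
      show -(x.2 ^ 3 + b2 * x.2 ^ 2 + b1 * x.2 + b0) = -(x.1 ^ 3 + b2 * x.1 ^ 2 + b1 * x.1 + b0)
      linear_combination hx4
    rw [Finset.offDiag_card] at h6
    refine h6.trans (le_of_eq ?_)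
    show A.card * A.card - A.card = A.card * (A.card - 1)
    rw [Nat.mul_sub, mul_one]
  have h5 : Finset.univ.filter (fun α : ZMod p =>
      ∀ x : ZMod p, x ^ 3 + b2 * x ^ 2 + b1 * x + b0 + α ≠ 0) =
      Finset.univ.filter (fun α => r α = 0) := by
    ext α
    simp only [Finset.mem_filter, Finset.mem_univ, true_and]
    constructor
    · intro h
      show (Finset.univ.filter (fun x => f x = α)).card = 0
      rw [Finset.card_eq_zero, Finset.filter_eq_empty_iff]
      intro x _ hx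
      apply h x
      have hx' : -(x ^ 3 + b2 * x ^ 2 + b1 * x + b0) = α := hx
      linear_combination -hx'
    · intro h x hx
      have h6 : (Finset.univ.filter (fun x => f x = α)).card = 0 := h
      rw [Finset.card_eq_zero, Finset.filter_eq_empty_iff] at h6
      apply h6 (Finset.mem_univ x)
      show -(x ^ 3 + b2 * x ^ 2 + b1 * x + b0) = α
      linear_combination -hx
  rw [h5]
  have h6 : ∀ α : ZMod p, 3 + r α * (r α - 1) ≤ 3 * (if r α = 0 then 1 else 0) + 3 * r α := by
    intro α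
    have := h2 α
    interval_cases r α <;> norm_num
  have h7 := Finset.sum_le_sum fun α (_ : α ∈ (Finset.univ : Finset (ZMod p))) => h6 α
  rw [Finset.sum_add_distrib, Finset.sum_add_distrib, Finset.sum_const, Finset.card_univ, ZMod.card,
    ← Finset.mul_sum, ← Finset.mul_sum, h1, smul_eq_mul] at h7
  have h8 : (Finset.univ.filter (fun α => r α = 0)).card = ∑ α : ZMod p, if r α = 0 then 1 else 0 :=
    Finset.card_filter _ _
  rw [h8]
  omega

/-- polynomials with a simple root in a given set -/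
theorem count_gen {M : ℕ} (A : Finset (ZMod p)) (GA : ZMod p → Set (Fin (M + 1) → ZMod p))
    (hGA : ∀ α, ∀ u ∈ GA α, (pol u).coeff M ≠ 0) {c : ℝ}
    (h : ∀ α ∈ A, c * (p : ℝ) ^ (M + 1) ≤ ((GA α).ncard : ℝ)) :
    (A.card : ℝ) * (c * (p : ℝ) ^ (M + 1)) ≤ (M + 1) * ({w : Fin (M + 1 + 1) → ZMod p |
      ∃ α ∈ A, ∃ u ∈ GA α, pol w = (X - C α) * pol u}.ncard : ℝ) := by
  classical
  let A' : ZMod p → Finset (Fin (M + 1) → ZMod p) := fun α => (Set.toFinite (GA α)).toFinset
  set s := A.sigma A' with hs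
  let f : (Σ _ : ZMod p, (Fin (M + 1) → ZMod p)) → (Fin (M + 1 + 1) → ZMod p) := fun x i =>
    ((X - C x.1) * pol x.2).coeff i
  have hdeg : ∀ x : (Σ _ : ZMod p, (Fin (M + 1) → ZMod p)),
      ((X - C x.1) * pol x.2).natDegree ≤ M + 1 := by
    intro x
    refine natDegree_mul_le.trans ?_
    rw [natDegree_X_sub_C]
    have := natDegree_pol_le x.2
    omega
  have hpol : ∀ x, pol (f x) = (X - C x.1) * pol x.2 := fun x => pol_coeff (hdeg x)
  have hmemA : ∀ α u, u ∈ A' α ↔ u ∈ GA α := fun α u => Set.Finite.mem_toFinset _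
  have hne : ∀ x ∈ s, pol (f x) ≠ 0 := by
    intro x hx
    rw [hs, Finset.mem_sigma, hmemA] at hx
    rw [hpol]
    refine mul_ne_zero (X_sub_C_ne_zero _) ?_
    intro h0
    apply hGA _ _ hx.2
    rw [h0, coeff_zero]
  have hfib : ∀ w ∈ s.image f, (s.filter (fun x => f x = w)).card ≤ M + 1 := by
    intro w hw
    obtain ⟨x0, hx0, rfl⟩ := Finset.mem_image.1 hw
    have h1 : (s.filter (fun x => f x = f x0)).card ≤ (pol (f x0)).roots.toFinset.card := by
      refine Finset.card_le_card_of_injOn (fun x => x.1) ?_ ?_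
      · intro x hx
        obtain ⟨hx1, hx2⟩ := Finset.mem_filter.1 hx
        rw [Finset.mem_coe, Multiset.mem_toFinset, mem_roots (hne x0 hx0), ← hx2, hpol, IsRoot.def,
          eval_mul, eval_sub, eval_X, eval_C, sub_self, zero_mul]
      · intro x hx y hy hxy
        obtain ⟨hx1, hx2⟩ := Finset.mem_filter.1 hx
        obtain ⟨hy1, hy2⟩ := Finset.mem_filter.1 hy
        have h3 : (X - C x.1) * pol x.2 = (X - C y.1) * pol y.2 := by
          rw [← hpol, ← hpol, hx2, hy2]
        obtain ⟨α, u⟩ := x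
        obtain ⟨β, w⟩ := y
        have hab : α = β := hxy
        subst hab
        have h4 : u = w := pol_injective (mul_left_cancel₀ (X_sub_C_ne_zero _) h3)
        rw [h4]
    refine h1.trans ((Multiset.toFinset_card_le _).trans ((card_roots' _).trans ?_))
    exact natDegree_pol_le _
  have h1 := Finset.card_le_mul_card_image s (M + 1) hfib
  have h2 : (s.image f).card ≤ {w : Fin (M + 1 + 1) → ZMod p |
      ∃ α ∈ A, ∃ u ∈ GA α, pol w = (X - C α) * pol u}.ncard := by
    rw [← Set.ncard_coe_finset]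
    refine Set.ncard_le_ncard ?_ (Set.toFinite _)
    intro w hw
    obtain ⟨x, hx, rfl⟩ := Finset.mem_image.1 (Finset.mem_coe.1 hw)
    rw [hs, Finset.mem_sigma, hmemA] at hx
    exact ⟨x.1, hx.1, x.2, hx.2, hpol x⟩
  have h3 : s.card = ∑ α ∈ A, (A' α).card := Finset.card_sigma _ _
  have h4 : ∀ α ∈ A, c * (p : ℝ) ^ (M + 1) ≤ ((A' α).card : ℝ) := by
    intro α hα
    have h5 := h α hα
    have h6 : (GA α).ncard = (A' α).card := Set.ncard_eq_toFinset_card _ _
    rwa [h6] at h5
  have h5 : (A.card : ℝ) * (c * (p : ℝ) ^ (M + 1)) ≤ (s.card : ℝ) := by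
    rw [h3, ← nsmul_eq_mul, ← Finset.sum_const]
    push_cast
    exact Finset.sum_le_sum h4
  refine h5.trans ?_
  have h8 : s.card ≤ (M + 1) * {w : Fin (M + 1 + 1) → ZMod p |
      ∃ α ∈ A, ∃ u ∈ GA α, pol w = (X - C α) * pol u}.ncard := h1.trans (Nat.mul_le_mul_left _ h2)
  exact_mod_cast h8

/-- the complementary factors -/
theorem count_simple {M : ℕ} (hM : 1 ≤ M) (α : ZMod p) :
    1 / 4 * (p : ℝ) ^ (M + 1) ≤
      ({u : Fin (M + 1) → ZMod p | (pol u).coeff M ≠ 0 ∧ (pol u).eval α ≠ 0}.ncard : ℝ) := by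
  classical
  have h1 : 1 / 4 * (p : ℝ) ^ (0 + 1 + 1) ≤
      ({y : Fin (0 + 1 + 1) → ZMod p | y 0 ≠ 0 ∧ y 1 ≠ 0}.ncard : ℝ) := by
    have h2 : {y : Fin (0 + 1 + 1) → ZMod p | y 0 ≠ 0 ∧ y 1 ≠ 0} =
        ((Fintype.piFinset fun _ : Fin (0 + 1 + 1) => (Finset.univ.erase (0 : ZMod p)) :
        Finset (Fin (0 + 1 + 1) → ZMod p)) : Set (Fin (0 + 1 + 1) → ZMod p)) := by
      ext y
      simp only [Set.mem_ofPred_eq, Finset.mem_coe, Fintype.mem_piFinset, Finset.mem_erase,
        Finset.mem_univ, and_true]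
      constructor
      · rintro ⟨h3, h4⟩ j
        fin_cases j
        · exact h3
        · exact h4
      · intro h
        exact ⟨h 0, h 1⟩
    rw [h2, Set.ncard_coe_finset, Fintype.card_piFinset_const, Finset.card_erase_of_mem
      (Finset.mem_univ _), Finset.card_univ, ZMod.card]
    have hp1 : 1 < p := (Fact.out : p.Prime).one_lt
    rw [Nat.cast_pow, Nat.cast_sub hp1.le]
    have : (2 : ℝ) ≤ p := by exact_mod_cast hp1
    push_cast
    nlinarith
  have h2 := (uniform_vals (n := 0) (M := M) hM (node := fun _ => α)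
    (fun i j _ => Fin.ext (by omega))).count h1
  rw [Fintype.card_fin] at h2
  exact h2

end count

section main

variable {κ : Type} [Fintype κ] {k : Type} [Field k] [CharZero k]

/-- **The cubic `x³ + b₂ x² + b₁ x + b₀ + t` has no root modulo `D`, for almost all `D`.** -/
theorem cubic_full (hk : FG k) (b2 b1 b0 : k) {M : ℕ} (hM : 1 ≤ M) {b : κ → k[X]}
    (hb : Spans (M + 1) b) :
    Full {v : κ → ℤ | ∀ u : k[X],
      ¬ comb b v ∣ (X ^ 3 + C b2 * X ^ 2 + C b1 * X + C b0 : k[X]).comp u + X} := by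
  classical
  let W : k[X] := X ^ 2 + X + 1
  let L := W.SplittingField
  haveI : CharZero L := charZero_of_injective_algebraMap (algebraMap k L).injective
  have hL : FG L := FG.finite hk
  set ι : k →+* L := algebraMap k L with hι
  obtain ⟨ω, hω⟩ : ∃ ω : L, ω ^ 2 + ω + 1 = 0 := by
    have h1 : (W.map ι).degree ≠ 0 := by
      have h2 : W.degree = 2 := by
        show (X ^ 2 + X + 1 : k[X]).degree = 2
        compute_degree!
      rw [degree_map, h2]
      norm_num
    obtain ⟨r, hr⟩ := (SplittingField.splits W).exists_eval_eq_zero h1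
    refine ⟨r, ?_⟩
    have h2 : (W.map ι).eval r = r ^ 2 + r + 1 := by
      show ((X ^ 2 + X + 1 : k[X]).map ι).eval r = _
      simp only [Polynomial.map_add, Polynomial.map_pow, map_X, Polynomial.map_one, eval_add,
        eval_pow, eval_X, eval_one]
    rw [← h2]
    exact hr
  obtain ⟨T, hT⟩ := comb_red hb
  refine full_of_primes _ (1 / (32 * (M + 1)) : ℝ) (by positivity) ?_
  have hinf := (embed_integral hL ((T ∪ {b2, b1, b0}).image ι ∪ {ω})).sdiff (Set.finite_lt_nat 6)
  apply hinf.mono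
  rintro p ⟨⟨hpp, φ, hφ⟩, hp⟩
  have hp6 : 6 ≤ p := not_lt.1 hp
  set ψ : k →+* ℚ_[p] := φ.comp ι with hψ
  have hψT : ∀ x ∈ T ∪ {b2, b1, b0}, ‖ψ x‖ ≤ 1 := fun x hx =>
    hφ _ (Finset.mem_union_left _ (Finset.mem_image_of_mem _ hx))
  obtain ⟨q, hq, hred⟩ := hT p ψ fun x hx => hψT x (Finset.mem_union_left _ hx)
  let B2 : ℤ_[p] := ⟨ψ b2, hψT _ (by simp)⟩
  let B1 : ℤ_[p] := ⟨ψ b1, hψT _ (by simp)⟩
  let B0 : ℤ_[p] := ⟨ψ b0, hψT _ (by simp)⟩
  let w : ℤ_[p] := ⟨φ ω, hφ _ (by simp)⟩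
  have hinj : Function.Injective (algebraMap ℤ_[p] ℚ_[p]) := IsFractionRing.injective ℤ_[p] ℚ_[p]
  have hw : (PadicInt.toZMod w) ^ 2 + PadicInt.toZMod w + 1 = 0 := by
    have h1 : w ^ 2 + w + 1 = 0 := by
      apply hinj
      rw [map_add, map_add, map_pow, map_one, map_zero]
      have h2 : algebraMap ℤ_[p] ℚ_[p] w = φ ω := rfl
      rw [h2, ← map_pow, ← map_add, ← map_one φ, ← map_add, hω, map_zero]
    have h2 := congrArg (PadicInt.toZMod (p := p)) h1
    rwa [map_add, map_add, map_pow, map_one, map_zero] at h2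
  have h3 : (3 : ZMod p) ≠ 0 := by
    intro h
    have h' : ((3 : ℕ) : ZMod p) = 0 := by exact_mod_cast h
    rw [ZMod.natCast_eq_zero_iff] at h'
    have := Nat.le_of_dvd (by norm_num) h'
    omega
  set A : Finset (ZMod p) := Finset.univ.filter (fun α : ZMod p => ∀ x : ZMod p,
    x ^ 3 + PadicInt.toZMod B2 * x ^ 2 + PadicInt.toZMod B1 * x + PadicInt.toZMod B0 + α ≠ 0) with hA
  have hAc := count_rootless (b2 := PadicInt.toZMod B2) (b1 := PadicInt.toZMod B1)
    (b0 := PadicInt.toZMod B0) hw h3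
  have hcount := count_gen (M := M) A (fun α => {u | (pol u).coeff M ≠ 0 ∧ (pol u).eval α ≠ 0})
    (fun α u hu => hu.1) (fun α _ => count_simple hM α)
  set S : Set (Fin (M + 1 + 1) → ZMod p) := {w : Fin (M + 1 + 1) → ZMod p |
      ∃ α ∈ A, ∃ u ∈ {u : Fin (M + 1) → ZMod p | (pol u).coeff M ≠ 0 ∧ (pol u).eval α ≠ 0},
        pol w = (X - C α) * pol u} with hS
  have hSc : 1 / (32 * (M + 1)) * (p : ℝ) ^ (M + 1 + 1) ≤ (S.ncard : ℝ) := by
    have h4 : (p : ℝ) ≤ 3 * A.card + 3 := by exact_mod_cast hAc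
    have h5 : (6 : ℝ) ≤ p := by exact_mod_cast hp6
    have h6 : (p : ℝ) / 8 ≤ A.card := by linarith
    have h7 : (p : ℝ) / 8 * (1 / 4 * (p : ℝ) ^ (M + 1)) ≤ (M + 1) * (S.ncard : ℝ) :=
      (mul_le_mul_of_nonneg_right h6 (by positivity)).trans hcount
    have h9 : (0 : ℝ) < M + 1 := by positivity
    have h10 : 1 / (32 * ((M : ℝ) + 1)) * (p : ℝ) ^ (M + 1 + 1) =
        ((p : ℝ) / 8 * (1 / 4 * (p : ℝ) ^ (M + 1))) / (M + 1) := by
      field_simp
      ring
    rw [h10, div_le_iff₀ h9]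
    linarith
  refine ⟨hpp.out, _, hq.count hSc, ?_⟩
  rintro v ⟨α, hα, u, ⟨hu1, hu2⟩, hu⟩ f hdvd
  obtain ⟨Q, hQ1, hQ2, hQ3⟩ := hred v
  rw [hu] at hQ2
  obtain ⟨x, hx1, hx2⟩ := root_lift hQ2 hu2
  -- the value at `x`
  set y : ℚ_[p] := (f.map ψ).eval (algebraMap ℤ_[p] ℚ_[p] x) with hy
  have hy0 : y ^ 3 + ψ b2 * y ^ 2 + ψ b1 * y + ψ b0 + algebraMap ℤ_[p] ℚ_[p] x = 0 := by
    have h5 := Polynomial.map_dvd ψ hdvd
    rw [← hQ3] at h5
    have h6 : (Q.map (algebraMap ℤ_[p] ℚ_[p])).eval (algebraMap ℤ_[p] ℚ_[p] x) = 0 := by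
      rw [Polynomial.eval_map_apply, hx1, map_zero]
    have h7 := eval_dvd (x := algebraMap ℤ_[p] ℚ_[p] x) h5
    rw [h6, zero_dvd_iff] at h7
    rw [← h7]
    simp only [Polynomial.map_add, Polynomial.map_comp, Polynomial.map_mul, Polynomial.map_pow,
      map_X, map_C, eval_add, eval_comp, eval_mul, eval_pow, eval_X, eval_C, ← hy]
  have hyint : IsIntegral ℤ_[p] y := by
    refine ⟨X ^ 3 + C B2 * X ^ 2 + C B1 * X + C (B0 + x), ?_, ?_⟩
    · monicity!
    · rw [← Polynomial.aeval_def]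
      simp only [map_add, map_mul, map_pow, aeval_X, aeval_C]
      have e2 : algebraMap ℤ_[p] ℚ_[p] B2 = ψ b2 := rfl
      have e1 : algebraMap ℤ_[p] ℚ_[p] B1 = ψ b1 := rfl
      have e0 : algebraMap ℤ_[p] ℚ_[p] B0 = ψ b0 := rfl
      rw [e2, e1, e0, ← hy0]
      ring
  obtain ⟨z, hz⟩ := IsIntegrallyClosed.isIntegral_iff.1 hyint
  have hz0 : z ^ 3 + B2 * z ^ 2 + B1 * z + B0 + x = 0 := by
    apply hinj
    rw [map_zero, ← hy0, ← hz]
    simp only [map_add, map_mul, map_pow]
    rfl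
  have h8 := congrArg (PadicInt.toZMod (p := p)) hz0
  simp only [map_add, map_mul, map_pow, map_zero, hx2] at h8
  exact (Finset.mem_filter.1 hα).2 (PadicInt.toZMod z) h8

end main

end Pool.Agent.Q308.TW
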