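import Pool.Agent.Q308.TC.Span

/-!
The number of the polynomials `(X - α) G` modulo `p` for which a certain product of values is not an
`ℓ`-th power.
-/

set_option autoImplicit false

open Polynomial Pool.Agent.Q126.TD Filter Topology

namespace Pool.Agent.Q308.TW

/-- The invariant of `(X - α) G`. -/
noncomputable def Inv {R : Type} [CommRing R] {n : ℕ} (ℓ M : ℕ) (a : Fin n → ℕ) (γ : Fin n → R) (α : R)
    (G : R[X]) : R :=
  (∏ i, G.eval (γ i) ^ a i) * (G.coeff M ^ (∑ i, a i) * (∏ i, (γ i - α) ^ a i) ^ M) ^ (ℓ - 1)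

theorem Inv_map {R S : Type} [CommRing R] [CommRing S] (f : R →+* S) {n : ℕ} (ℓ M : ℕ)
    (a : Fin n → ℕ) (γ : Fin n → R) (α : R) (G : R[X]) :
    f (Inv ℓ M a γ α G) = Inv ℓ M a (fun i => f (γ i)) (f α) (G.map f) := by
  unfold Inv
  simp only [map_mul, map_prod, map_pow, map_sub, coeff_map, Polynomial.eval_map_apply]

section count

variable {p : ℕ} [Fact p.Prime]

/-- a power prime to `ℓ` of an element which is not an `ℓ`-th power is not an `ℓ`-th power -/
theorem not_pow {F : Type} [Field F] {ℓ a : ℕ} (hℓ : ℓ.Prime) (ha : ¬ ℓ ∣ a) {x : F} (hx0 : x ≠ 0)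
    (hx : ¬ ∃ r, x = r ^ ℓ) : ¬ ∃ r, x ^ a = r ^ ℓ := by
  rintro ⟨r, hr⟩
  apply hx
  have hco : IsCoprime (a : ℤ) (ℓ : ℤ) :=
    Nat.isCoprime_iff_coprime.2 ((Nat.Prime.coprime_iff_not_dvd hℓ).2 ha).symm
  obtain ⟨u, v, huv⟩ := hco
  have hr0 : r ≠ 0 := by
    rintro rfl
    rw [zero_pow hℓ.ne_zero] at hr
    exact pow_ne_zero _ hx0 hr
  refine ⟨r ^ u * x ^ v, ?_⟩
  have h1 : x = x ^ (u * a + v * ℓ : ℤ) := by rw [huv, zpow_one]
  rw [mul_pow, ← zpow_natCast (r ^ u), ← zpow_natCast (x ^ v), ← zpow_mul, ← zpow_mul, mul_comm u,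
    zpow_mul, zpow_natCast, ← hr]
  conv_lhs => rw [h1, zpow_add₀ hx0, mul_comm u, zpow_mul, zpow_natCast]

/-- the count of the values -/
theorem count_vals {n ℓ : ℕ} (hℓ : ℓ.Prime) {n₀ : ZMod p} (hn₀ : ¬ ∃ r, n₀ = r ^ ℓ)
    {a : Fin n → ℕ} {i0 : Fin n} (ha : ¬ ℓ ∣ a i0) {A : ZMod p} (hA : A ≠ 0) (s : ℕ) :
    1 / 2 ^ (n + 3) * (p : ℝ) ^ (n + 1 + 1) ≤
      ({y : Fin (n + 1 + 1) → ZMod p | y 0 ≠ 0 ∧ y 1 ≠ 0 ∧
        ¬ ∃ r, (∏ i : Fin n, y i.succ.succ ^ a i) * (y 0 ^ s * A) ^ (ℓ - 1) = r ^ ℓ}.ncard : ℝ) := by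
  classical
  have hn00 : n₀ ≠ 0 := by
    rintro rfl
    exact hn₀ ⟨0, (zero_pow hℓ.ne_zero).symm⟩
  set T : Set (Fin (n + 1 + 1) → ZMod p) := {y | ∀ j, y j ≠ 0} with hT
  set Φ : (Fin (n + 1 + 1) → ZMod p) → ZMod p := fun y =>
    (∏ i : Fin n, y i.succ.succ ^ a i) * (y 0 ^ s * A) ^ (ℓ - 1) with hΦ
  set G : Set (Fin (n + 1 + 1) → ZMod p) := {y | y ∈ T ∧ ¬ ∃ r, Φ y = r ^ ℓ} with hG
  set B : Set (Fin (n + 1 + 1) → ZMod p) := {y | y ∈ T ∧ ∃ r, Φ y = r ^ ℓ} with hB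
  set t : Fin (n + 1 + 1) → ZMod p := fun j => if j = i0.succ.succ then n₀ else 1 with ht
  have ht0 : ∀ j, t j ≠ 0 := by
    intro j
    rw [ht]
    show (if j = i0.succ.succ then n₀ else 1) ≠ 0
    split_ifs
    · exact hn00
    · exact one_ne_zero
  have hTc : T.ncard = (p - 1) ^ (n + 1 + 1) := by
    have h1 : T = ((Fintype.piFinset fun _ : Fin (n + 1 + 1) => (Finset.univ.erase (0 : ZMod p)) :
        Finset (Fin (n + 1 + 1) → ZMod p)) : Set (Fin (n + 1 + 1) → ZMod p)) := by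
      ext y
      simp only [hT, Set.mem_ofPred_eq, Finset.mem_coe, Fintype.mem_piFinset, Finset.mem_erase,
        Finset.mem_univ, and_true]
    rw [h1, Set.ncard_coe_finset, Fintype.card_piFinset_const, Finset.card_erase_of_mem
      (Finset.mem_univ _), Finset.card_univ, ZMod.card]
  have hΦt : ∀ y, Φ (fun j => t j * y j) = n₀ ^ a i0 * Φ y := by
    intro y
    have h1 : ∏ i : Fin n, (t i.succ.succ * y i.succ.succ) ^ a i =
        n₀ ^ a i0 * ∏ i : Fin n, y i.succ.succ ^ a i := by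
      simp only [mul_pow, Finset.prod_mul_distrib]
      congr 1
      rw [Finset.prod_eq_single i0]
      · simp [ht]
      · intro j _ hj
        have h2 : t j.succ.succ = 1 := by
          rw [ht]
          show (if j.succ.succ = i0.succ.succ then n₀ else 1) = 1
          rw [if_neg]
          intro h
          exact hj (Fin.succ_injective _ (Fin.succ_injective _ h))
        rw [h2, one_pow]
      · intro h
        exact absurd (Finset.mem_univ _) h
    have h2 : t 0 = 1 := by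
      rw [ht]
      show (if (0 : Fin (n + 1 + 1)) = i0.succ.succ then n₀ else 1) = 1
      rw [if_neg]
      exact (Fin.succ_ne_zero _).symm
    show (∏ i : Fin n, (t i.succ.succ * y i.succ.succ) ^ a i) * ((t 0 * y 0) ^ s * A) ^ (ℓ - 1) = _
    rw [h1, h2, one_mul, mul_assoc]
  have hBG : B.ncard ≤ G.ncard := by
    refine Set.ncard_le_ncard_of_injOn (fun y j => t j * y j) ?_ ?_ (Set.toFinite _)
    · rintro y ⟨hy, r, hr⟩
      refine ⟨fun j => mul_ne_zero (ht0 j) (hy j), ?_⟩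
      rw [hΦt, hr]
      rintro ⟨r', hr'⟩
      have hr0 : r ≠ 0 := by
        rintro rfl
        rw [zero_pow hℓ.ne_zero] at hr
        have : Φ y ≠ 0 := mul_ne_zero (Finset.prod_ne_zero_iff.2 fun i _ => pow_ne_zero _ (hy _))
          (pow_ne_zero _ (mul_ne_zero (pow_ne_zero _ (hy 0)) hA))
        exact this hr
      apply not_pow hℓ ha hn00 hn₀
      refine ⟨r' / r, ?_⟩
      rw [div_pow, ← hr', mul_div_cancel_right₀ _ (pow_ne_zero _ hr0)]
    · intro y _ y' _ h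
      funext j
      exact mul_left_cancel₀ (ht0 j) (congrFun h j)
  have hTG : T.ncard ≤ G.ncard + B.ncard := by
    refine (Set.ncard_le_ncard (t := G ∪ B) ?_ (Set.toFinite _)).trans (Set.ncard_union_le _ _)
    intro y hy
    by_cases h : ∃ r, Φ y = r ^ ℓ
    · exact Or.inr ⟨hy, h⟩
    · exact Or.inl ⟨hy, h⟩
  have hGS : G.ncard ≤ {y : Fin (n + 1 + 1) → ZMod p | y 0 ≠ 0 ∧ y 1 ≠ 0 ∧
        ¬ ∃ r, (∏ i : Fin n, y i.succ.succ ^ a i) * (y 0 ^ s * A) ^ (ℓ - 1) = r ^ ℓ}.ncard := by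
    refine Set.ncard_le_ncard ?_ (Set.toFinite _)
    rintro y ⟨hy, h⟩
    exact ⟨hy 0, hy 1, h⟩
  have h1 : (p - 1) ^ (n + 1 + 1) ≤ 2 * {y : Fin (n + 1 + 1) → ZMod p | y 0 ≠ 0 ∧ y 1 ≠ 0 ∧
        ¬ ∃ r, (∏ i : Fin n, y i.succ.succ ^ a i) * (y 0 ^ s * A) ^ (ℓ - 1) = r ^ ℓ}.ncard := by
    rw [← hTc]
    omega
  have hp1 : 1 < p := (Fact.out : p.Prime).one_lt
  have h2 : ((p : ℝ) / 2) ^ (n + 1 + 1) ≤ ((p - 1 : ℕ) : ℝ) ^ (n + 1 + 1) := by
    apply pow_le_pow_left₀ (by positivity)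
    rw [Nat.cast_sub hp1.le]
    have : (2 : ℝ) ≤ p := by exact_mod_cast hp1
    push_cast
    linarith
  have h3 : ((p - 1 : ℕ) : ℝ) ^ (n + 1 + 1) ≤ 2 * ({y : Fin (n + 1 + 1) → ZMod p | y 0 ≠ 0 ∧ y 1 ≠ 0 ∧
        ¬ ∃ r, (∏ i : Fin n, y i.succ.succ ^ a i) * (y 0 ^ s * A) ^ (ℓ - 1) = r ^ ℓ}.ncard : ℝ) := by
    exact_mod_cast h1
  have h4 : 1 / 2 ^ (n + 3) * (p : ℝ) ^ (n + 1 + 1) = ((p : ℝ) / 2) ^ (n + 1 + 1) / 2 := by
    rw [div_pow]
    field_simp
    ring
  rw [h4]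
  linarith

/-- the polynomials with given values and a given leading coefficient -/
theorem surj_vals {F : Type} [Field F] {n M : ℕ} (hM : n + 1 ≤ M) {node : Fin (n + 1) → F}
    (hnode : Function.Injective node) (y : Fin (n + 1 + 1) → F) :
    ∃ G : F[X], G.natDegree ≤ M ∧ G.coeff M = y 0 ∧ ∀ j, G.eval (node j) = y j.succ := by
  classical
  set I := Lagrange.interpolate Finset.univ node (fun j => y j.succ) with hI
  have hId : I.degree < (n + 1 : ℕ) := by
    have := Lagrange.degree_interpolate_lt (s := Finset.univ) (v := node)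
      (fun j => y j.succ) hnode.injOn
    rwa [Finset.card_univ, Fintype.card_fin] at this
  set W := Lagrange.nodal Finset.univ node with hW
  have hWm : W.Monic := Lagrange.nodal_monic
  have hWd : W.natDegree = n + 1 := by
    rw [hW, Lagrange.natDegree_nodal, Finset.card_univ, Fintype.card_fin]
  have hIn : I.natDegree < M := by
    by_cases h0 : I = 0
    · rw [h0, natDegree_zero]; omega
    · have := (natDegree_lt_iff_degree_lt h0).2 hId
      omega
  have hXW : (X ^ (M - (n + 1)) * W).natDegree = M := by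
    rw [((monic_X_pow _).natDegree_mul hWm), natDegree_X_pow, hWd]
    omega
  have hXWc : (X ^ (M - (n + 1)) * W).coeff M = 1 := by
    have h1 : (X ^ (M - (n + 1)) * W).Monic := (monic_X_pow _).mul hWm
    have h2 := h1.coeff_natDegree
    rwa [hXW] at h2
  refine ⟨I + C (y 0) * (X ^ (M - (n + 1)) * W), ?_, ?_, ?_⟩
  · refine (natDegree_add_le _ _).trans (max_le hIn.le ?_)
    refine (natDegree_C_mul_le _ _).trans ?_
    rw [hXW]
  · rw [coeff_add, coeff_eq_zero_of_natDegree_lt hIn, zero_add, coeff_C_mul, hXWc, mul_one]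
  · intro j
    rw [eval_add, eval_mul, eval_mul, hW, Lagrange.eval_nodal_at_node (Finset.mem_univ j), mul_zero,
      mul_zero, add_zero, hI]
    exact Lagrange.eval_interpolate_at_node _ hnode.injOn (Finset.mem_univ j)

/-- the linear map of the values -/
theorem uniform_vals {n M : ℕ} (hM : n + 1 ≤ M) {node : Fin (n + 1) → ZMod p}
    (hnode : Function.Injective node) :
    Uniform p (fun u : Fin (M + 1) → ZMod p =>
      (Fin.cons ((pol u).coeff M) (fun j => (pol u).eval (node j)) : Fin (n + 1 + 1) → ZMod p)) := by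
  classical
  have padd : ∀ u w : Fin (M + 1) → ZMod p, pol (u + w) = pol u + pol w := by
    intro u w
    unfold pol
    rw [← Finset.sum_add_distrib]
    refine Finset.sum_congr rfl fun i _ => ?_
    rw [Pi.add_apply, C_add, add_mul]
  have psmul : ∀ (r : ZMod p) (u : Fin (M + 1) → ZMod p), pol (r • u) = C r * pol u := by
    intro r u
    unfold pol
    rw [Finset.mul_sum]
    refine Finset.sum_congr rfl fun i _ => ?_
    rw [Pi.smul_apply, smul_eq_mul, C_mul, mul_assoc]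
  let f : (Fin (M + 1) → ZMod p) →ₗ[ZMod p] (Fin (n + 1 + 1) → ZMod p) :=
    { toFun := fun u => Fin.cons ((pol u).coeff M) (fun j => (pol u).eval (node j))
      map_add' := fun u w => by
        funext j
        refine Fin.cases ?_ (fun j => ?_) j
        · simp only [padd, Fin.cons_zero, coeff_add, Pi.add_apply]
        · simp only [padd, Fin.cons_succ, eval_add, Pi.add_apply]
      map_smul' := fun r u => by
        funext j
        refine Fin.cases ?_ (fun j => ?_) j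
        · simp only [psmul, Fin.cons_zero, coeff_C_mul, Pi.smul_apply, smul_eq_mul, RingHom.id_apply]
        · simp only [psmul, Fin.cons_succ, eval_mul, eval_C, Pi.smul_apply, smul_eq_mul,
            RingHom.id_apply] }
  have hf : Function.Surjective f := by
    intro y
    obtain ⟨G, h1, h2, h3⟩ := surj_vals hM hnode y
    refine ⟨fun i => G.coeff i, ?_⟩
    show (Fin.cons ((pol fun i : Fin (M + 1) => G.coeff i).coeff M)
      (fun j => (pol fun i : Fin (M + 1) => G.coeff i).eval (node j)) : Fin (n + 1 + 1) → ZMod p) = y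
    rw [pol_coeff h1]
    funext j
    refine Fin.cases ?_ (fun j => ?_) j
    · rw [Fin.cons_zero, h2]
    · rw [Fin.cons_succ, h3]
  exact Pool.Agent.Q308.TC.uniform_of_surj f hf

/-- the good vectors for one `α` -/
def GoodA {n : ℕ} (ℓ M : ℕ) (a : Fin n → ℕ) (γ : Fin n → ZMod p) (α : ZMod p) :
    Set (Fin (M + 1) → ZMod p) :=
  {u | (pol u).coeff M ≠ 0 ∧ (pol u).eval α ≠ 0 ∧ ¬ ∃ r, Inv ℓ M a γ α (pol u) = r ^ ℓ}

theorem count_goodA {n M ℓ : ℕ} (hM : n + 1 ≤ M) (hℓ : ℓ.Prime) {n₀ : ZMod p}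
    (hn₀ : ¬ ∃ r, n₀ = r ^ ℓ) {a : Fin n → ℕ} {i0 : Fin n} (ha : ¬ ℓ ∣ a i0) {γ : Fin n → ZMod p}
    (hγ : Function.Injective γ) {α : ZMod p} (hα : ∀ i, γ i ≠ α) :
    1 / 2 ^ (n + 3) * (p : ℝ) ^ (M + 1) ≤ ((GoodA ℓ M a γ α).ncard : ℝ) := by
  have hnode : Function.Injective (Fin.cons α γ : Fin (n + 1) → ZMod p) := by
    rw [Fin.cons_injective_iff]
    refine ⟨?_, hγ⟩
    rintro ⟨i, hi⟩
    exact hα i hi
  have hA : (∏ i, (γ i - α) ^ a i) ^ M ≠ 0 :=
    pow_ne_zero _ (Finset.prod_ne_zero_iff.2 fun i _ => pow_ne_zero _ (sub_ne_zero.2 (hα i)))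
  have h1 := (uniform_vals hM hnode).count (count_vals (n := n) hℓ hn₀ ha hA (∑ i, a i))
  rw [Fintype.card_fin] at h1
  refine h1.trans (le_of_eq ?_)
  congr 2

/-- the good vectors -/
def GoodD {n : ℕ} (ℓ M : ℕ) (a : Fin n → ℕ) (γ : Fin n → ZMod p) :
    Set (Fin (M + 1 + 1) → ZMod p) :=
  {w | ∃ (α : ZMod p) (u : Fin (M + 1) → ZMod p), (∀ i, γ i ≠ α) ∧
    pol w = (X - C α) * pol u ∧ u ∈ GoodA ℓ M a γ α}

theorem count_goodD {n M ℓ : ℕ} (hM : n + 1 ≤ M) (hpn : 2 * n ≤ p) (hℓ : ℓ.Prime) {n₀ : ZMod p}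
    (hn₀ : ¬ ∃ r, n₀ = r ^ ℓ) {a : Fin n → ℕ} {i0 : Fin n} (ha : ¬ ℓ ∣ a i0) {γ : Fin n → ZMod p}
    (hγ : Function.Injective γ) :
    1 / (2 ^ (n + 4) * (M + 1)) * (p : ℝ) ^ (M + 1 + 1) ≤ ((GoodD ℓ M a γ).ncard : ℝ) := by
  classical
  set U : Finset (ZMod p) := Finset.univ.filter (fun α => ∀ i, γ i ≠ α) with hU
  have hUc : p ≤ U.card + n := by
    have h1 : (Finset.univ : Finset (ZMod p)) ⊆ U ∪ Finset.univ.image γ := by
      intro α _
      by_cases h : ∀ i, γ i ≠ α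
      · exact Finset.mem_union_left _ (Finset.mem_filter.2 ⟨Finset.mem_univ _, h⟩)
      · push Not at h
        obtain ⟨i, hi⟩ := h
        exact Finset.mem_union_right _ (Finset.mem_image.2 ⟨i, Finset.mem_univ _, hi⟩)
    have h2 := (Finset.card_le_card h1).trans (Finset.card_union_le _ _)
    rw [Finset.card_univ, ZMod.card] at h2
    have h3 : (Finset.univ.image γ).card ≤ n := by
      have := Finset.card_image_le (s := (Finset.univ : Finset (Fin n))) (f := γ)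
      rwa [Finset.card_univ, Fintype.card_fin] at this
    omega
  let A : ZMod p → Finset (Fin (M + 1) → ZMod p) := fun α =>
    (Set.toFinite (GoodA ℓ M a γ α)).toFinset
  set s := U.sigma A with hs
  let f : (Σ _ : ZMod p, (Fin (M + 1) → ZMod p)) → (Fin (M + 1 + 1) → ZMod p) := fun x i =>
    ((X - C x.1) * pol x.2).coeff i
  have hdeg : ∀ x : (Σ _ : ZMod p, (Fin (M + 1) → ZMod p)),
      ((X - C x.1) * pol x.2).natDegree ≤ M + 1 := by
    intro x
    refine natDegree_mul_le.trans ?_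
    rw [natDegree_X_sub_C]
    have := natDegree_pol_le x.2
    omega
  have hpol : ∀ x, pol (f x) = (X - C x.1) * pol x.2 := fun x => pol_coeff (hdeg x)
  have hmemA : ∀ α u, u ∈ A α ↔ u ∈ GoodA ℓ M a γ α := fun α u => Set.Finite.mem_toFinset _
  have hne : ∀ x ∈ s, pol (f x) ≠ 0 := by
    intro x hx
    rw [hs, Finset.mem_sigma, hmemA] at hx
    rw [hpol]
    refine mul_ne_zero (X_sub_C_ne_zero _) ?_
    intro h0
    apply hx.2.1
    rw [h0, coeff_zero]
  have hfib : ∀ w ∈ s.image f, (s.filter (fun x => f x = w)).card ≤ M + 1 := by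
    intro w hw
    obtain ⟨x0, hx0, rfl⟩ := Finset.mem_image.1 hw
    have h1 : (s.filter (fun x => f x = f x0)).card ≤ (pol (f x0)).roots.toFinset.card := by
      refine Finset.card_le_card_of_injOn (fun x => x.1) ?_ ?_
      · intro x hx
        obtain ⟨hx1, hx2⟩ := Finset.mem_filter.1 hx
        rw [Finset.mem_coe, Multiset.mem_toFinset, mem_roots (hne x0 hx0), ← hx2, hpol, IsRoot.def,
          eval_mul, eval_sub, eval_X, eval_C, sub_self, zero_mul]
      · intro x hx y hy hxy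
        obtain ⟨hx1, hx2⟩ := Finset.mem_filter.1 hx
        obtain ⟨hy1, hy2⟩ := Finset.mem_filter.1 hy
        have h3 : (X - C x.1) * pol x.2 = (X - C y.1) * pol y.2 := by
          rw [← hpol, ← hpol, hx2, hy2]
        obtain ⟨α, u⟩ := x
        obtain ⟨β, w⟩ := y
        have hab : α = β := hxy
        subst hab
        have h4 : u = w := pol_injective (mul_left_cancel₀ (X_sub_C_ne_zero _) h3)
        rw [h4]
    refine h1.trans ((Multiset.toFinset_card_le _).trans ((card_roots' _).trans ?_))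
    exact natDegree_pol_le _
  have h1 := Finset.card_le_mul_card_image s (M + 1) hfib
  have h2 : (s.image f).card ≤ (GoodD ℓ M a γ).ncard := by
    rw [← Set.ncard_coe_finset]
    refine Set.ncard_le_ncard ?_ (Set.toFinite _)
    intro w hw
    obtain ⟨x, hx, rfl⟩ := Finset.mem_image.1 (Finset.mem_coe.1 hw)
    rw [hs, Finset.mem_sigma, hmemA] at hx
    exact ⟨x.1, x.2, (Finset.mem_filter.1 hx.1).2, hpol x, hx.2⟩
  have h3 : s.card = ∑ α ∈ U, (A α).card := Finset.card_sigma _ _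
  have h4 : ∀ α ∈ U, 1 / 2 ^ (n + 3) * (p : ℝ) ^ (M + 1) ≤ ((A α).card : ℝ) := by
    intro α hα
    have h5 := count_goodA hM hℓ hn₀ ha hγ (α := α) (Finset.mem_filter.1 hα).2
    have h6 : (GoodA ℓ M a γ α).ncard = (A α).card := Set.ncard_eq_toFinset_card _ _
    rwa [h6] at h5
  have h5 : (U.card : ℝ) * (1 / 2 ^ (n + 3) * (p : ℝ) ^ (M + 1)) ≤ (s.card : ℝ) := by
    rw [h3, ← nsmul_eq_mul, ← Finset.sum_const]
    push_cast
    exact Finset.sum_le_sum h4
  have h6 : (p : ℝ) / 2 ≤ U.card := by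
    have h7 : (p : ℝ) ≤ U.card + n := by exact_mod_cast hUc
    have h8 : (2 : ℝ) * n ≤ p := by exact_mod_cast hpn
    linarith
  have h7 : (s.card : ℝ) ≤ (M + 1) * ((GoodD ℓ M a γ).ncard : ℝ) := by
    have h8 : s.card ≤ (M + 1) * (GoodD ℓ M a γ).ncard := h1.trans (Nat.mul_le_mul_left _ h2)
    exact_mod_cast h8
  have h8 : (p : ℝ) / 2 * (1 / 2 ^ (n + 3) * (p : ℝ) ^ (M + 1)) ≤
      (U.card : ℝ) * (1 / 2 ^ (n + 3) * (p : ℝ) ^ (M + 1)) :=
    mul_le_mul_of_nonneg_right h6 (by positivity)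
  have h9 : (0 : ℝ) < M + 1 := by positivity
  have h10 : 1 / (2 ^ (n + 4) * ((M : ℝ) + 1)) * (p : ℝ) ^ (M + 1 + 1) =
      ((p : ℝ) / 2 * (1 / 2 ^ (n + 3) * (p : ℝ) ^ (M + 1))) / (M + 1) := by
    field_simp
    ring
  rw [h10, div_le_iff₀ h9]
  linarith

end count

end Pool.Agent.Q308.TW
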