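import Pool.Agent.Q308.TW.Pad

/-!
For almost all integer combinations `D` of a spanning family, no constant multiple of
`∏ (γ i - X) ^ a i` is an `ℓ`-th power modulo `D`.
-/

set_option autoImplicit false

open Polynomial Pool.Agent.Q126.TD Pool.Agent.Q308.TC Filter Topology

namespace Pool.Agent.Q308.TW

variable {κ : Type} [Fintype κ]

/-- Reduction of the integer combinations of a spanning family modulo a prime. -/
theorem comb_red {k : Type} [Field k] {m : ℕ} {b : κ → k[X]} (hb : Spans m b) :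
    ∃ T : Finset k, ∀ (p : ℕ) [Fact p.Prime] (ψ : k →+* ℚ_[p]), (∀ x ∈ T, ‖ψ x‖ ≤ 1) →
      ∃ q : (κ → ZMod p) → (Fin (m + 1) → ZMod p), Uniform p q ∧ ∀ v : κ → ℤ,
        ∃ Q : ℤ_[p][X], Q.natDegree ≤ m ∧
          Q.map (PadicInt.toZMod (p := p)) = pol (q fun i => ((v i : ℤ) : ZMod p)) ∧
          Q.map (algebraMap ℤ_[p] ℚ_[p]) = (comb b v).map ψ := by
  classical
  choose c hc using hb.2
  refine ⟨(Finset.univ.image fun x : κ × Fin (m + 1) => (b x.1).coeff x.2) ∪
    (Finset.univ.image fun x : Fin (m + 1) × κ => c x.1 x.2), ?_⟩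
  intro p _ ψ hψ
  have hφb : ∀ (i : κ) (j : Fin (m + 1)), ‖ψ ((b i).coeff j)‖ ≤ 1 := by
    intro i j
    apply hψ
    simp only [Finset.mem_union, Finset.mem_image, Finset.mem_univ, true_and]
    exact Or.inl ⟨(i, j), rfl⟩
  have hφc : ∀ (j : Fin (m + 1)) (i : κ), ‖ψ (c j i)‖ ≤ 1 := by
    intro j i
    apply hψ
    simp only [Finset.mem_union, Finset.mem_image, Finset.mem_univ, true_and]
    exact Or.inr ⟨(j, i), rfl⟩
  let β : κ → Fin (m + 1) → ℤ_[p] := fun i j => ⟨ψ ((b i).coeff j), hφb i j⟩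
  let γ : Fin (m + 1) → κ → ℤ_[p] := fun j i => ⟨ψ (c j i), hφc j i⟩
  have hrel : ∀ j l : Fin (m + 1), ∑ i, γ j i * β i l = if l = j then 1 else 0 := by
    intro j l
    have h1 := congrArg (fun f : k[X] => ψ (f.coeff l)) (hc j)
    simp only [finset_sum_coeff, coeff_C_mul, coeff_X_pow, map_sum, map_mul] at h1
    have h2 : Function.Injective (algebraMap ℤ_[p] ℚ_[p]) := IsFractionRing.injective ℤ_[p] ℚ_[p]
    apply h2
    rw [map_sum]
    have h3 : ∀ i, algebraMap ℤ_[p] ℚ_[p] (γ j i * β i l) = ψ (c j i) * ψ ((b i).coeff l) := by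
      intro i
      rw [map_mul]
      rfl
    simp_rw [h3]
    rw [h1]
    by_cases h4 : l = j
    · rw [if_pos h4, if_pos (by rw [h4]), map_one, map_one]
    · rw [if_neg h4, if_neg (fun h => h4 (Fin.ext h)), map_zero, map_zero]
  let q : (κ → ZMod p) →ₗ[ZMod p] (Fin (m + 1) → ZMod p) :=
    { toFun := fun w j => ∑ i, w i * PadicInt.toZMod (β i j)
      map_add' := fun w w' => by
        funext j
        simp only [Pi.add_apply, add_mul, Finset.sum_add_distrib]
      map_smul' := fun a w => by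
        funext j
        simp only [Pi.smul_apply, smul_eq_mul, RingHom.id_apply, Finset.mul_sum, mul_assoc] }
  have hq : ∀ (w : κ → ZMod p) (j : Fin (m + 1)), q w j = ∑ i, w i * PadicInt.toZMod (β i j) :=
    fun w j => rfl
  have hsurj : Function.Surjective q := by
    intro y
    refine ⟨∑ j, y j • fun i => PadicInt.toZMod (γ j i), ?_⟩
    rw [map_sum]
    funext l
    simp only [map_smul, Finset.sum_apply, Pi.smul_apply, smul_eq_mul, hq]
    have h1 : ∀ j : Fin (m + 1), ∑ i, PadicInt.toZMod (γ j i) * PadicInt.toZMod (β i l) =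
        if l = j then (1 : ZMod p) else 0 := by
      intro j
      have h2 := congrArg PadicInt.toZMod (hrel j l)
      rw [map_sum] at h2
      simp only [map_mul] at h2
      rw [h2]
      split_ifs <;> simp
    simp_rw [h1]
    simp
  refine ⟨q, uniform_of_surj q hsurj, fun v => ?_⟩
  refine ⟨pol (fun j : Fin (m + 1) => ∑ i, ((v i : ℤ) : ℤ_[p]) * β i j), natDegree_pol_le _, ?_, ?_⟩
  · rw [map_pol]
    congr 1
    funext j
    rw [hq, map_sum]
    exact Finset.sum_congr rfl fun i _ => by rw [map_mul, map_intCast]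
  · rw [map_pol]
    have hcd : (comb b v).natDegree ≤ m := by
      unfold comb
      apply natDegree_sum_le_of_forall_le
      intro i _
      exact (natDegree_C_mul_le _ _).trans (hb.1 i)
    have h3 : ((comb b v).map ψ).natDegree ≤ m := by
      rw [natDegree_map]; exact hcd
    rw [← pol_coeff h3]
    congr 1
    funext j
    rw [coeff_map, map_sum]
    unfold comb
    rw [finset_sum_coeff, map_sum]
    refine Finset.sum_congr rfl fun i _ => ?_
    rw [coeff_C_mul, map_mul, map_mul, map_intCast, map_intCast]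
    rfl

/-- there are elements which are not `ℓ`-th powers -/
theorem exists_not_pow {F : Type} [Field F] [Finite F] {ℓ : ℕ} (hℓ : ℓ.Prime) {ζ : F} (h1 : ζ ≠ 1)
    (h2 : ζ ^ ℓ = 1) : ∃ n₀ : F, ¬ ∃ r, n₀ = r ^ ℓ := by
  by_contra hcon
  push Not at hcon
  have hsurj : Function.Surjective (fun r : F => r ^ ℓ) := fun y => by
    obtain ⟨r, hr⟩ := hcon y
    exact ⟨r, hr.symm⟩
  have hinj := Finite.injective_iff_surjective.2 hsurj
  apply h1
  apply hinj
  show ζ ^ ℓ = 1 ^ ℓ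
  rw [h2, one_pow]

/-- integral elements of `ℚ_p` whose inverse is integral -/
theorem toZMod_ne {p : ℕ} [Fact p.Prime] {x y : ℤ_[p]}
    (h : ‖((algebraMap ℤ_[p] ℚ_[p] x) - algebraMap ℤ_[p] ℚ_[p] y)⁻¹‖ ≤ 1)
    (hxy : x ≠ y) : PadicInt.toZMod x ≠ PadicInt.toZMod y := by
  intro he
  have h1 : (algebraMap ℤ_[p] ℚ_[p] x) - algebraMap ℤ_[p] ℚ_[p] y ≠ 0 := by
    rw [← map_sub, Ne, map_eq_zero_iff _ (IsFractionRing.injective ℤ_[p] ℚ_[p])]
    exact sub_ne_zero.2 hxy
  let w : ℤ_[p] := ⟨_, h⟩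
  have h2 : (x - y) * w = 1 := by
    apply IsFractionRing.injective ℤ_[p] ℚ_[p]
    rw [map_mul, map_sub, map_one]
    exact mul_inv_cancel₀ h1
  have h3 := congrArg (PadicInt.toZMod (p := p)) h2
  rw [map_mul, map_sub, he, sub_self, zero_mul, map_one] at h3
  exact zero_ne_one h3

/-- **No constant multiple of `∏ (γ i - X) ^ a i` is an `ℓ`-th power modulo `D`, for almost all `D`.** -/
theorem lin_full {L : Type} [Field L] [CharZero L] (hL : FG L) {ℓ : ℕ} (hℓ : ℓ.Prime) {ζ : L}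
    (hζ : IsPrimitiveRoot ζ ℓ) {n : ℕ} {γ : Fin n → L} (hγ : Function.Injective γ)
    {a : Fin n → ℕ} {i0 : Fin n} (ha : ¬ ℓ ∣ a i0) {M : ℕ} (hM : n + 1 ≤ M) {b : κ → L[X]}
    (hb : Spans (M + 1) b) :
    Full {v : κ → ℤ | ∀ (c : L) (z : L[X]), c ≠ 0 →
      ¬ comb b v ∣ C c * ∏ i, (C (γ i) - X) ^ a i - z ^ ℓ} := by
  classical
  obtain ⟨T, hT⟩ := comb_red hb
  refine full_of_primes _ (1 / (2 ^ (n + 4) * (M + 1)) : ℝ) (by positivity) ?_
  have hinf := (embed_integral hL (T ∪ {ζ, (ζ - 1)⁻¹} ∪ (Finset.univ.image γ) ∪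
    (Finset.univ.image fun x : Fin n × Fin n => (γ x.1 - γ x.2)⁻¹))).sdiff
    (Set.finite_lt_nat (2 * n))
  apply hinf.mono
  rintro p ⟨⟨hpp, φ, hφ⟩, hp⟩
  have hpn : 2 * n ≤ p := not_lt.1 hp
  obtain ⟨q, hq, hred⟩ := hT p φ fun x hx => hφ x (by simp [hx])
  have hζ1 : ζ ≠ 1 := hζ.ne_one hℓ.one_lt
  let z₀ : ℤ_[p] := ⟨φ ζ, hφ ζ (by simp)⟩
  have hz1 : PadicInt.toZMod z₀ ≠ PadicInt.toZMod (1 : ℤ_[p]) := by
    apply toZMod_ne
    · have h1 : (algebraMap ℤ_[p] ℚ_[p] z₀ - algebraMap ℤ_[p] ℚ_[p] 1)⁻¹ = φ ((ζ - 1)⁻¹) := by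
        rw [map_inv₀, map_sub, map_one, map_one]
        rfl
      rw [h1]
      exact hφ _ (by simp)
    · intro h
      apply hζ1
      apply φ.injective
      rw [map_one]
      have := congrArg (algebraMap ℤ_[p] ℚ_[p]) h
      rw [map_one] at this
      exact this
  rw [map_one] at hz1
  have hz2 : (PadicInt.toZMod z₀) ^ ℓ = 1 := by
    rw [← map_pow]
    have : z₀ ^ ℓ = 1 := by
      apply IsFractionRing.injective ℤ_[p] ℚ_[p]
      rw [map_pow, map_one]
      show (φ ζ) ^ ℓ = 1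
      rw [← map_pow, hζ.pow_eq_one, map_one]
    rw [this, map_one]
  obtain ⟨n₀, hn₀⟩ := exists_not_pow hℓ hz1 hz2
  let g : Fin n → ℤ_[p] := fun i => ⟨φ (γ i), hφ _ (by simp)⟩
  have hg : Function.Injective fun i => PadicInt.toZMod (g i) := by
    intro i j hij
    by_contra hne
    refine toZMod_ne (x := g i) (y := g j) ?_ ?_ hij
    · have h1 : (algebraMap ℤ_[p] ℚ_[p] (g i) - algebraMap ℤ_[p] ℚ_[p] (g j))⁻¹ =
          φ ((γ i - γ j)⁻¹) := by
        rw [map_inv₀, map_sub]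
        rfl
      rw [h1]
      apply hφ
      simp only [Finset.mem_union, Finset.mem_image, Finset.mem_univ, true_and]
      exact Or.inr ⟨(i, j), rfl⟩
    · intro h
      apply hne
      apply hγ
      apply φ.injective
      exact congrArg (algebraMap ℤ_[p] ℚ_[p]) h
  refine ⟨hpp.out, _, hq.count (count_goodD hM hpn hℓ hn₀ ha hg), ?_⟩
  rintro v ⟨α, u, hα, hu, hu1, hu2, hu3⟩ c z hc hdvd
  obtain ⟨Q, hQ1, hQ2, hQ3⟩ := hred v
  rw [hu] at hQ2
  refine padic (γ := g) (a := a) hℓ hQ1 hQ2 hu1 hu2 hα hu3 (c := φ c) ((map_ne_zero φ).2 hc) (z.map φ) ?_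
  have h1 := Polynomial.map_dvd φ hdvd
  rw [← hQ3, Polynomial.map_sub, Polynomial.map_mul, Polynomial.map_pow, map_C, Polynomial.map_prod]
    at h1
  simp only [Polynomial.map_pow, Polynomial.map_sub, map_C, map_X] at h1
  exact h1

end Pool.Agent.Q308.TW
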