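import Pool.Agent.Q308.TW.Cnt
import Pool.Agent.Q126.TD.Sq

/-!
The `p`-adic part: a polynomial over `ℤ_p` whose reduction is good does not divide `c ∏ (γ i - X) ^ a i - z ^ ℓ`.
-/

set_option autoImplicit false

open Polynomial Pool.Agent.Q126.TD Filter Topology

namespace Pool.Agent.Q308.TW

/-- the norm of a linear polynomial -/
theorem norm_lin {K : Type} [Field K] {H : K[X]} (hH : H ≠ 0) (γ : K) :
    Algebra.norm K (AdjoinRoot.mk H (C γ - X)) = H.eval γ * H.leadingCoeff⁻¹ := by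
  classical
  have h1 : AdjoinRoot.mk H (C γ - X) =
      algebraMap K (AdjoinRoot H) γ - (AdjoinRoot.powerBasis hH).gen := by
    rw [map_sub, AdjoinRoot.mk_C, AdjoinRoot.mk_X, AdjoinRoot.powerBasis_gen]
    rfl
  rw [h1, Algebra.norm_eq_matrix_det (AdjoinRoot.powerBasis hH).basis, map_sub,
    AlgHom.commutes]
  have h2 := Matrix.eval_charpoly (Algebra.leftMulMatrix (AdjoinRoot.powerBasis hH).basis
    (AdjoinRoot.powerBasis hH).gen) γ
  rw [charpoly_leftMulMatrix, AdjoinRoot.minpoly_powerBasis_gen hH, eval_mul, eval_C] at h2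
  rw [h2]
  rfl

/-- an element of `ℤ_p` which is an `ℓ`-th power in `ℚ_p` is an `ℓ`-th power modulo `p` -/
theorem pow_red {p : ℕ} [Fact p.Prime] {ℓ : ℕ} (hℓ : ℓ ≠ 0) {x : ℤ_[p]}
    (hx : ∃ y : ℚ_[p], algebraMap ℤ_[p] ℚ_[p] x = y ^ ℓ) :
    ∃ r : ZMod p, PadicInt.toZMod x = r ^ ℓ := by
  obtain ⟨y, hy⟩ := hx
  have hy1 : ‖y‖ ≤ 1 := by
    have h1 : ‖y‖ ^ ℓ ≤ 1 := by
      rw [← norm_pow, ← hy]
      exact PadicInt.norm_le_one x
    exact (pow_le_one_iff_of_nonneg (norm_nonneg _) hℓ).1 h1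
  let y' : ℤ_[p] := ⟨y, hy1⟩
  have h2 : x = y' ^ ℓ := by
    apply IsFractionRing.injective ℤ_[p] ℚ_[p]
    rw [map_pow]
    exact hy
  exact ⟨PadicInt.toZMod y', by rw [h2, map_pow]⟩

/-- **The main step.** -/
theorem padic {p : ℕ} [Fact p.Prime] {n ℓ M : ℕ} (hℓ : ℓ.Prime) {a : Fin n → ℕ}
    {γ : Fin n → ℤ_[p]} {α : ZMod p} {G : (ZMod p)[X]} {Q : ℤ_[p][X]} (hQ : Q.natDegree ≤ M + 1)
    (hred : Q.map (PadicInt.toZMod (p := p)) = (X - C α) * G) (hGM : G.coeff M ≠ 0)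
    (hGα : G.eval α ≠ 0) (hγα : ∀ i, PadicInt.toZMod (γ i) ≠ α)
    (hinv : ¬ ∃ r, Inv ℓ M a (fun i => PadicInt.toZMod (γ i)) α G = r ^ ℓ)
    {c : ℚ_[p]} (hc : c ≠ 0) (z : ℚ_[p][X]) :
    ¬ Q.map (algebraMap ℤ_[p] ℚ_[p]) ∣
      C c * ∏ i, (C (algebraMap ℤ_[p] ℚ_[p] (γ i)) - X) ^ a i - z ^ ℓ := by
  classical
  intro hdvd
  obtain ⟨x, hx1, hx2⟩ := root_lift hred hGα
  set ι := algebraMap ℤ_[p] ℚ_[p] with hι
  have hιinj : Function.Injective ι := IsFractionRing.injective ℤ_[p] ℚ_[p]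
  set H := Q /ₘ (X - C x) with hH
  have hQH : (X - C x) * H = Q := mul_divByMonic_eq_iff_isRoot.2 hx1
  have hHred : H.map (PadicInt.toZMod (p := p)) = G := by
    have h1 : (X - C α) * H.map (PadicInt.toZMod (p := p)) = (X - C α) * G := by
      rw [← hred, ← hQH, Polynomial.map_mul, Polynomial.map_sub, map_X, map_C, hx2]
    exact mul_left_cancel₀ (X_sub_C_ne_zero α) h1
  have hHM : PadicInt.toZMod (H.coeff M) ≠ 0 := by
    rw [← coeff_map, hHred]
    exact hGM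
  have hHM0 : H.coeff M ≠ 0 := by
    intro h0
    rw [h0, map_zero] at hHM
    exact hHM rfl
  have hH0 : H ≠ 0 := by
    intro h0
    apply hHM0
    rw [h0, coeff_zero]
  have hHd : H.natDegree = M := by
    apply le_antisymm
    · have h1 : Q.natDegree = 1 + H.natDegree := by
        rw [← hQH, natDegree_mul (X_sub_C_ne_zero x) hH0, natDegree_X_sub_C]
      omega
    · exact le_natDegree_of_ne_zero hHM0
  -- the value at `x`
  set P : ℚ_[p][X] := ∏ i, (C (ι (γ i)) - X) ^ a i with hP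
  have hQι : (X - C (ι x)) * H.map ι = Q.map ι := by
    rw [← hQH, Polynomial.map_mul, Polynomial.map_sub, map_X, map_C]
  have e1 : c * ι (∏ i, (γ i - x) ^ a i) = (z.eval (ι x)) ^ ℓ := by
    have h1 : (X - C (ι x)) ∣ C c * P - z ^ ℓ := (Dvd.intro _ hQι).trans hdvd
    have h2 := dvd_iff_isRoot.1 h1
    rw [IsRoot.def, eval_sub, eval_mul, eval_C, eval_pow, sub_eq_zero] at h2
    rw [← h2, hP, eval_prod]
    simp only [eval_pow, eval_sub, eval_C, eval_X, map_prod, map_pow, map_sub]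
  -- the norm
  have hHι0 : H.map ι ≠ 0 := (Polynomial.map_ne_zero_iff hιinj).2 hH0
  have hHιd : (H.map ι).natDegree = M := by
    rw [natDegree_map_eq_of_injective hιinj, hHd]
  have hlc : (H.map ι).leadingCoeff = ι (H.coeff M) := by
    rw [leadingCoeff, hHιd, coeff_map]
  have e2 : c ^ M * ∏ i, ((H.map ι).eval (ι (γ i)) * (ι (H.coeff M))⁻¹) ^ a i =
      (Algebra.norm ℚ_[p] (AdjoinRoot.mk (H.map ι) z)) ^ ℓ := by
    have h1 : (H.map ι) ∣ C c * P - z ^ ℓ := (Dvd.intro_left _ hQι).trans hdvd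
    have h2 : AdjoinRoot.mk (H.map ι) (C c * P) = AdjoinRoot.mk (H.map ι) (z ^ ℓ) :=
      AdjoinRoot.mk_eq_mk.2 h1
    have h3 := congrArg (Algebra.norm ℚ_[p]) h2
    rw [map_pow, map_pow, map_mul, map_mul, AdjoinRoot.mk_C, hP, map_prod, map_prod] at h3
    rw [← h3]
    congr 1
    · have h4 : (AdjoinRoot.of (H.map ι)) c = algebraMap ℚ_[p] (AdjoinRoot (H.map ι)) c := rfl
      rw [h4, Algebra.norm_algebraMap, (AdjoinRoot.powerBasis hHι0).finrank,
        AdjoinRoot.powerBasis_dim, hHιd]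
    · refine Finset.prod_congr rfl fun i _ => ?_
      rw [map_pow, map_pow, norm_lin hHι0, hlc]
  set w := Algebra.norm ℚ_[p] (AdjoinRoot.mk (H.map ι) z) with hw
  -- nonzero factors
  have hinv0 : Inv ℓ M a (fun i => PadicInt.toZMod (γ i)) α G ≠ 0 := by
    intro h0
    exact hinv ⟨0, by rw [h0, zero_pow hℓ.ne_zero]⟩
  have hInvr : PadicInt.toZMod (Inv ℓ M a γ x H) =
      Inv ℓ M a (fun i => PadicInt.toZMod (γ i)) α G := by
    rw [Inv_map, hx2, hHred]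
  apply hinv
  rw [← hInvr]
  apply pow_red hℓ.ne_zero
  have hInv0 : Inv ℓ M a γ x H ≠ 0 := by
    intro h0
    rw [← hInvr, h0, map_zero] at hinv0
    exact hinv0 rfl
  set A : ℤ_[p] := ∏ i, (γ i - x) ^ a i with hA
  set B : ℤ_[p] := ∏ i, H.eval (γ i) ^ a i with hB
  set s := ∑ i, a i with hs
  set lam := H.coeff M with hlam
  have hInvE : Inv ℓ M a γ x H = B * (lam ^ s * A ^ M) ^ (ℓ - 1) := rfl
  have hlam0 : ι lam ≠ 0 := by
    rw [Ne, map_eq_zero_iff _ hιinj]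
    exact hHM0
  have hprod : ∏ i, ((H.map ι).eval (ι (γ i)) * (ι lam)⁻¹) ^ a i = ι B * ((ι lam)⁻¹) ^ s := by
    simp only [mul_pow, Finset.prod_mul_distrib, Finset.prod_pow_eq_pow_sum]
    rw [hB, map_prod]
    congr 1
    refine Finset.prod_congr rfl fun i _ => ?_
    rw [map_pow, Polynomial.eval_map_apply]
  rw [hprod] at e2
  have hA0 : ι A ≠ 0 := by
    rw [Ne, map_eq_zero_iff _ hιinj, hA, Finset.prod_eq_zero_iff]
    rintro ⟨i, -, hi⟩
    have h1 : γ i - x = 0 := (pow_eq_zero_iff (n := a i) (fun h => by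
      rw [h, pow_zero] at hi
      exact one_ne_zero hi)).1 hi
    apply hγα i
    rw [← hx2, sub_eq_zero.1 h1]
  set y := z.eval (ι x) with hy
  have hy0 : y ≠ 0 := by
    intro h0
    rw [h0, zero_pow hℓ.ne_zero] at e1
    exact mul_ne_zero hc hA0 e1
  have e1' : c = y ^ ℓ / ι A := by
    rw [← e1, mul_div_cancel_right₀ _ hA0]
  refine ⟨ι lam ^ s * ι A ^ M * (w / y ^ M), ?_⟩
  have e3 : ι B = ι lam ^ s * ι A ^ M * (w / y ^ M) ^ ℓ := by
    have h1 : (y ^ ℓ) ^ M * ι B = w ^ ℓ * (ι A ^ M * ι lam ^ s) := by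
      rw [e1', div_pow, inv_pow] at e2
      field_simp at e2
      linear_combination e2
    have h2 : (y ^ ℓ) ^ M = (y ^ M) ^ ℓ := by rw [← pow_mul, ← pow_mul, mul_comm]
    rw [h2] at h1
    rw [div_pow]
    field_simp
    linear_combination h1
  have hℓ1 : ∀ t : ℚ_[p], t ^ ℓ = t * t ^ (ℓ - 1) := by
    intro t
    obtain ⟨m, hm⟩ := Nat.exists_eq_succ_of_ne_zero hℓ.ne_zero
    rw [hm, Nat.succ_sub_one, pow_succ']
  rw [hInvE, map_mul, map_pow, map_mul, map_pow, map_pow, e3, mul_pow (ι lam ^ s * ι A ^ M) (w / y ^ M) ℓ,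
    hℓ1 (ι lam ^ s * ι A ^ M)]
  ring

end Pool.Agent.Q308.TW
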