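import Pool.Agent.Q308.TW.Full
import Pool.Agent.Y713.SE.Twist

/-!
Twists `y ^ ℓ = D(t) F(x)` by a given polynomial `D`, and by almost all polynomials `D`.
-/

set_option autoImplicit false
set_option linter.all false

open Polynomial IsDedekindDomain

namespace Pool.Agent.Q308.TW

open Pool.Agent.Y713.SE Pool.Agent.Y713

variable {k : Type} [Field k] (K : Type) [Field K] [Algebra k[X] K] [IsFractionRing k[X] K]

/-- The criterion for one `D`. -/
theorem twist_of {ℓ : ℕ} (hℓ : ℓ.Prime) (hk : (ℓ : k) ≠ 0) {ζ : k} (hζ : IsPrimitiveRoot ζ ℓ)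
    {F : K[X]} (hs : F.Splits) (hsep : F.Separable) (hn : ¬ ℓ ∣ F.natDegree) :
    ∃ T : Finset k[X], (∀ π ∈ T, Irreducible π ∧ π.Monic) ∧ ∀ D : k[X], Irreducible D →
      ¬ ℓ ∣ D.natDegree → (∀ π ∈ T, ¬ D ∣ π) →
      (∀ (c : k) (e : k[X] → ℕ) (z : k[X]), c ≠ 0 → D ∣ C c * ∏ π ∈ T, π ^ e π - z ^ ℓ →
        ∀ π ∈ T, ℓ ∣ e π) →
      Jac.ShaPrimaryTrivial ℓ (C (algebraMap k[X] K D) * F) k[X] := by
  classical
  have hnd : F.roots.Nodup := nodup_roots hsep
  have hF0 : F ≠ 0 := hsep.ne_zero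
  set n := F.natDegree with hndef
  have hcard : F.roots.toFinset.card = n := by
    rw [Multiset.toFinset_card_of_nodup hnd, ← hs.natDegree_eq_card_roots]
  let eqv := F.roots.toFinset.equivFinOfCardEq hcard
  let e : Fin n → K := fun i => (eqv.symm i : K)
  have he : Function.Injective e := Subtype.val_injective.comp eqv.symm.injective
  have hlc : F.leadingCoeff ≠ 0 := leadingCoeff_ne_zero.2 hF0
  have hfac : F = C F.leadingCoeff * ∏ i : Fin n, (X - C (e i)) := by
    conv_lhs => rw [hs.eq_prod_roots]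
    congr 1
    have h3 : (F.roots.map fun a => X - C a).prod = ∏ a ∈ F.roots.toFinset, (X - C a) := by
      rw [Finset.prod_multiset_map_count]
      refine Finset.prod_congr rfl fun a ha => ?_
      rw [Multiset.count_eq_one_of_mem hnd (Multiset.mem_toFinset.1 ha), pow_one]
    rw [h3, ← Finset.prod_coe_sort]
    exact (Equiv.prod_comp eqv.symm (fun a : F.roots.toFinset => (X - C (a : K)))).symm
  -- the bad places
  let Bad : Set (HeightOneSpectrum k[X]) := {v | v.valuation K F.leadingCoeff ≠ 1} ∪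
    ⋃ i : Fin n, ⋃ j : Fin n, if i = j then ∅ else {v | v.valuation K (e i - e j) ≠ 1}
  have hBad : Bad.Finite := by
    refine (finite_bad hlc).union (Set.finite_iUnion fun i => Set.finite_iUnion fun j => ?_)
    split_ifs with hij
    · exact Set.finite_empty
    · exact finite_bad (sub_ne_zero.2 fun h => hij (he h))
  have hnBad : ∀ v, v ∉ Bad → v.valuation K F.leadingCoeff = 1 ∧
      ∀ i j, i ≠ j → v.valuation K (e i - e j) = 1 := by
    intro v hv
    rw [Set.mem_union, not_or] at hv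
    refine ⟨not_not.1 hv.1, fun i j hij => ?_⟩
    by_contra hne
    apply hv.2
    rw [Set.mem_iUnion]
    refine ⟨i, Set.mem_iUnion.2 ⟨j, ?_⟩⟩
    rw [if_neg hij]
    exact hne
  let T : Finset k[X] := hBad.toFinset.image gen
  have hT : ∀ π ∈ T, Irreducible π ∧ π.Monic := by
    intro π hπ
    obtain ⟨v, -, rfl⟩ := Finset.mem_image.1 hπ
    exact ⟨gen_irr v, gen_monic v⟩
  have hTBad : ∀ v, (∀ π ∈ T, π ∉ v.asIdeal) → v ∉ Bad := by
    intro v hv hb
    exact hv (gen v) (Finset.mem_image.2 ⟨v, hBad.mem_toFinset.2 hb, rfl⟩) (gen_mem v)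
  refine ⟨T, hT, ?_⟩
  intro D hD2 hD4 hDT hD5
  have hv0 : hp D hD2 ∉ Bad := by
    apply hTBad
    intro π hπ hmem
    exact hDT π hπ ((mem_hp hD2 π).1 hmem)
  have hDK : algebraMap k[X] K D ≠ 0 := by simpa using hD2.ne_zero
  have hδ : algebraMap k[X] K D * F.leadingCoeff ≠ 0 := mul_ne_zero hDK hlc
  let DD := tDat K hℓ hk hζ hδ he hn
  have hf : DD.f = C (algebraMap k[X] K D) * F := by
    unfold Dat.f
    show C (algebraMap k[X] K D * F.leadingCoeff) * ∏ i : Fin n, (X - C (e i)) = _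
    conv_rhs => rw [hfac]
    rw [C_mul, mul_assoc]
  rw [← hf]
  obtain ⟨p, hexp⟩ := ExpChar.exists K
  haveI := hexp
  haveI : ExpChar (SeparableClosure K) p :=
    expChar_of_injective_algebraMap (algebraMap K (SeparableClosure K)).injective p
  haveI : ∀ v : HeightOneSpectrum k[X], ExpChar (SeparableClosure (v.adicCompletion K)) p := fun v =>
    expChar_of_injective_algebraMap
      (algebraMap K (SeparableClosure (v.adicCompletion K))).injective p
  have hvD : ∀ v, v ≠ hp D hD2 → v.valuation K (algebraMap k[X] K D) = 1 := by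
    intro v hv
    rw [val_eq_one_iff]
    exact fun hmem => hv (eq_hp hD2 hmem)
  apply DD.sha_primary (R := k[X])
  refine DD.crit1 (p := p) (fun v => SeparableClosure (v.adicCompletion K)) ?_ Bad (hp D hD2)
    (hnBad _ hv0).2 ?_ ?_ ?_
  · intro v
    have h3 : ((ℓ : ℕ) : K) = algebraMap k[X] K (C (ℓ : k)) := by
      rw [C_eq_natCast, map_natCast]
    rw [h3]
    exact val_C hk
  · show ¬ Pw ℓ ((hp D hD2).valuation K (algebraMap k[X] K D * F.leadingCoeff))
    rw [map_mul, (hnBad _ hv0).1, mul_one, val_hp_self]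
    exact not_pw_exp hℓ
  · intro v hv hvne
    refine ⟨(hnBad v hv).2, ?_⟩
    show v.valuation K (algebraMap k[X] K D * F.leadingCoeff) = 1
    rw [map_mul, (hnBad v hv).1, mul_one, hvD v hvne]
  · intro d hd hpw hx
    exact stab1 hℓ hD2 hD4 T hT hDT hD5 hd (fun v hv hvne => hpw v (hTBad v hv) hvne) hx

/-- **Almost all twists.** -/
theorem twist_almost [CharZero k] (hfg : Pool.Agent.Q126.TD.FG k) {ℓ : ℕ} (hℓ : ℓ.Prime) {ζ : k}
    (hζ : IsPrimitiveRoot ζ ℓ) {F : K[X]} (hs : F.Splits) (hsep : F.Separable)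
    (hn : ¬ ℓ ∣ F.natDegree) : ∃ N₀ : ℕ, ∀ N : ℕ, N₀ ≤ N → ¬ ℓ ∣ N → ∀ (κ : Type) [Fintype κ]
      (b : κ → k[X]), Pool.Agent.Q308.TC.Spans N b →
      Pool.Agent.Q126.TD.Full {v : κ → ℤ |
        (Irreducible (Pool.Agent.Q308.TC.comb b v) ∧ (Pool.Agent.Q308.TC.comb b v).natDegree = N) ∧
        Jac.ShaPrimaryTrivial ℓ (C (algebraMap k[X] K (Pool.Agent.Q308.TC.comb b v)) * F) k[X]} := by
  have hk : (ℓ : k) ≠ 0 := by exact_mod_cast hℓ.ne_zero
  obtain ⟨T, hT, h⟩ := twist_of K hℓ hk hζ hs hsep hn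
  refine ⟨(∏ π ∈ T, π).natDegree + 2, fun N hN hℓN κ _ b hb => ?_⟩
  refine (twist_full hfg hℓ hζ T hT hN hb).mono ?_
  rintro v ⟨h1, h2, h3, h4⟩
  exact ⟨⟨h1, h2⟩, h _ h1 (by rw [h2]; exact hℓN) h3 h4⟩

end Pool.Agent.Q308.TW
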