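import Pool.Agent.Q308.TW.Lin
import Pool.Agent.Q308.TC.Forms
import Pool.Agent.Q126.TD.Sq

/-!
Almost all pairs of integer combinations of a spanning family: no constant multiple of the second one
is a square modulo the first one.
-/

set_option autoImplicit false

open Polynomial Pool.Agent.Q126.TD Pool.Agent.Q308.TC Pool.Agent.TH115.GD Filter Topology

namespace Pool.Agent.Q308.TW

variable {κ : Type} [Fintype κ]

/-- Pairs of vectors. -/
theorem count_pair {p : ℕ} [Fact p.Prime] {m : ℕ} {q : (κ → ZMod p) → (Fin (m + 1) → ZMod p)}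
    (h : Uniform p q) {G : Set (Fin (m + 1) ⊕ Fin (m + 1) → ZMod p)} {c : ℝ}
    (hG : c * (p : ℝ) ^ Fintype.card (Fin (m + 1) ⊕ Fin (m + 1)) ≤ G.ncard) :
    c * (p : ℝ) ^ Fintype.card (κ ⊕ κ) ≤
      ({w | Sum.elim (q fun i => w (Sum.inl i)) (q fun i => w (Sum.inr i)) ∈ G} :
        Set (κ ⊕ κ → ZMod p)).ncard := by
  classical
  obtain ⟨A, e, he⟩ := h
  have hp0 : (0 : ℝ) < p := by exact_mod_cast (Fact.out : p.Prime).pos
  have hA : Finite A := by
    have h1 : Finite (A × (Fin (m + 1) → ZMod p)) := Finite.of_equiv _ e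
    exact Finite.of_surjective (Prod.fst : A × (Fin (m + 1) → ZMod p) → A) Prod.fst_surjective
  let E : (κ ⊕ κ → ZMod p) ≃ (A × A) × (Fin (m + 1) ⊕ Fin (m + 1) → ZMod p) :=
    (Equiv.sumArrowEquivProdArrow κ κ (ZMod p)).trans
      (((e.prodCongr e).trans (Equiv.prodProdProdComm _ _ _ _)).trans
        (Equiv.prodCongr (Equiv.refl _)
          (Equiv.sumArrowEquivProdArrow (Fin (m + 1)) (Fin (m + 1)) (ZMod p)).symm))
  have hE : ∀ w, (E w).2 = Sum.elim (q fun i => w (Sum.inl i)) (q fun i => w (Sum.inr i)) := by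
    intro w
    funext i
    rcases i with i | i
    · show (e fun i => w (Sum.inl i)).2 i = _
      rw [he]
      rfl
    · show (e fun i => w (Sum.inr i)).2 i = _
      rw [he]
      rfl
  have h1 : Nat.card (A × A) * p ^ Fintype.card (Fin (m + 1) ⊕ Fin (m + 1)) =
      p ^ Fintype.card (κ ⊕ κ) := by
    have h2 := Nat.card_congr E
    rw [Nat.card_prod, Nat.card_eq_fintype_card (α := κ ⊕ κ → ZMod p), Fintype.card_fun, ZMod.card,
      Nat.card_eq_fintype_card (α := Fin (m + 1) ⊕ Fin (m + 1) → ZMod p), Fintype.card_fun,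
      ZMod.card] at h2
    exact h2.symm
  have h2 : ({w | Sum.elim (q fun i => w (Sum.inl i)) (q fun i => w (Sum.inr i)) ∈ G} :
        Set (κ ⊕ κ → ZMod p)).ncard = Nat.card (A × A) * G.ncard := by
    have h3 : E '' {w | Sum.elim (q fun i => w (Sum.inl i)) (q fun i => w (Sum.inr i)) ∈ G} =
        Set.univ ×ˢ G := by
      ext x
      constructor
      · rintro ⟨w, hw, rfl⟩
        refine ⟨trivial, ?_⟩
        rw [hE]
        exact hw
      · rintro ⟨-, hx⟩
        refine ⟨E.symm x, ?_, E.apply_symm_apply x⟩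
        show Sum.elim _ _ ∈ G
        rw [← hE, E.apply_symm_apply]
        exact hx
    rw [← Set.ncard_image_of_injective _ E.injective, h3, Set.ncard_prod, Set.ncard_univ]
  rw [h2]
  have h3 : (Nat.card (A × A) : ℝ) * (p : ℝ) ^ Fintype.card (Fin (m + 1) ⊕ Fin (m + 1)) =
      (p : ℝ) ^ Fintype.card (κ ⊕ κ) := by exact_mod_cast h1
  push_cast at h3 ⊢
  rw [← h3]
  have h4 := mul_le_mul_of_nonneg_left hG (Nat.cast_nonneg (α := ℝ) (Nat.card (A × A)))
  push_cast at h4
  linarith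

/-- **Almost all pairs `(a, b)`: no constant multiple of `b` is a square modulo `a`.** -/
theorem sq_span {k : Type} [Field k] [CharZero k] (hk : FG k) {N : ℕ} (hN : 4 ≤ N) {b : κ → k[X]}
    (hb : Spans N b) :
    Full {v : κ ⊕ κ → ℤ | ∀ c : k, c ≠ 0 →
      ¬ SqMod (comb b (left v)) (C c * comb b (right v))} := by
  classical
  obtain ⟨N, rfl⟩ : ∃ N', N = N' + 2 := ⟨N - 2, by omega⟩
  have hN' : 2 ≤ N := by omega
  obtain ⟨T, hT⟩ := comb_red hb
  refine full_of_primes _ (1 / (768 * N : ℝ)) (by positivity) ?_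
  have hinf := (embed_integral hk T).sdiff (Set.finite_lt_nat 11)
  apply hinf.mono
  rintro p ⟨⟨hpp, φ, hφ⟩, hp⟩
  have hp11 : 11 ≤ p := not_lt.1 hp
  obtain ⟨q, hq, hred⟩ := hT p φ hφ
  refine ⟨hpp.out, _, count_pair hq (count3 hp11 hN'), ?_⟩
  rintro v ⟨α, β, g, hαβ, hg, hg2, ha, hb'⟩ c hc ⟨z, hz⟩
  simp only [Sum.elim_inl, Sum.elim_inr] at ha hb'
  obtain ⟨P, -, hP2, hP3⟩ := hred (left v)
  obtain ⟨Q, -, hQ2, hQ3⟩ := hred (right v)
  have ea : P.map (PadicInt.toZMod (p := p)) = (X - C α) * ((X - C β) * g) := by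
    rw [hP2]
    exact ha
  have eb : Q.map (PadicInt.toZMod (p := p)) =
      pol (fun i => q (fun i => ((v (Sum.inr i) : ℤ) : ZMod p)) i) := hQ2
  rw [← eb] at hb'
  have nr := not_root_of_irr hg hg2
  obtain ⟨x, hx1, hx2⟩ := root_lift (p := p) (f := P) (α := α)
    (g := (X - C β) * g) (by rw [ea]) (by
      rw [eval_mul, eval_sub, eval_X, eval_C]
      exact mul_ne_zero (sub_ne_zero.2 hαβ) (nr α))
  obtain ⟨y, hy1, hy2⟩ := root_lift (p := p) (f := P) (α := β)
    (g := (X - C α) * g) (by rw [ea]; ring) (by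
      rw [eval_mul, eval_sub, eval_X, eval_C]
      exact mul_ne_zero (sub_ne_zero.2 (Ne.symm hαβ)) (nr β))
  apply hb'
  have root : ∀ s : ℤ_[p], P.eval s = 0 →
      ((z.map φ).eval (algebraMap ℤ_[p] ℚ_[p] s)) ^ 2 =
        φ c * algebraMap ℤ_[p] ℚ_[p] (Q.eval s) := by
    intro s hs
    have h1 : ((comb b (left v)).map φ).eval (algebraMap ℤ_[p] ℚ_[p] s) = 0 := by
      rw [← hP3, Polynomial.eval_map_apply, hs, map_zero]
    have h2 := eval_dvd (x := algebraMap ℤ_[p] ℚ_[p] s) (Polynomial.map_dvd φ hz)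
    rw [h1, zero_dvd_iff, Polynomial.map_sub, Polynomial.map_mul, Polynomial.map_pow, map_C,
      eval_sub, eval_mul, eval_pow, eval_C, ← hQ3, Polynomial.eval_map_apply] at h2
    exact sub_eq_zero.1 h2
  have r1 := root x hx1
  have r2 := root y hy1
  have hφc : φ c ≠ 0 := (map_ne_zero φ).2 hc
  have h3 : IsSquare (algebraMap ℤ_[p] ℚ_[p] (Q.eval x * Q.eval y)) := by
    refine ⟨(z.map φ).eval (algebraMap ℤ_[p] ℚ_[p] x) * (z.map φ).eval (algebraMap ℤ_[p] ℚ_[p] y) /
      φ c, ?_⟩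
    rw [map_mul]
    field_simp
    linear_combination
      (-(φ c * algebraMap ℤ_[p] ℚ_[p] (Q.eval y))) * r1 -
      ((z.map φ).eval (algebraMap ℤ_[p] ℚ_[p] x)) ^ 2 * r2
  have h4 := sq_red h3
  rw [map_mul, ← Polynomial.eval_map_apply, ← Polynomial.eval_map_apply, hx2, hy2] at h4
  exact h4

end Pool.Agent.Q308.TW
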