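import Pool.Agent.Y713.TG.Stm
import Pool.Agent.Y713.SE.Stm

/-!
# The Tate-Shafarevich group of the Jacobian of `y ^ ℓ = f(x)`

`K` is the field of fractions of a Dedekind domain `R`, and `f` is a polynomial over `K` of degree
prime to `ℓ`. The classes in `H ^ 1 (K, J)` are represented by continuous 1-cocycles of
`Gal(Sep K / K)` with values in `J(Sep K)`, where `J(L) = Pic(L[x, y] / (y ^ ℓ - f(x)))`
(`Pool.Agent.Y713.TG.Stm`).
-/

set_option autoImplicit false
set_option linter.all false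

open Polynomial IsDedekindDomain

namespace Pool.Agent.Q308.Sel

open Pool.Agent.TH115.GD (Sep Comp rs)
open Pool.Agent.Y713.Tate (J mapJ cob IsCoc LocTriv)

section defs

variable (ℓ : ℕ) {K : Type} [Field K] (f : K[X])

/-- The function `c` on the Galois group is a coboundary. -/
def IsZero (c : (Sep K ≃ₐ[K] Sep K) → J ℓ f (Sep K)) : Prop :=
  ∃ Q : J ℓ f (Sep K), ∀ τ, c τ = cob ℓ f Q τ

variable (R : Type) [CommRing R] [IsDedekindDomain R] [Algebra R K] [IsFractionRing R K]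

/-- The class of `c` is zero over the completions of `K` at all maximal ideals of `R`. -/
def IsLocal (c : (Sep K ≃ₐ[K] Sep K) → J ℓ f (Sep K)) : Prop :=
  ∀ v : HeightOneSpectrum R, LocTriv ℓ f (Comp R K v) (Sep (Comp R K v)) c

/-- Every class of `ℓ`-power order in `H ^ 1 (K, J)` which is zero over the completions of `K` at all
maximal ideals of `R` is zero. -/
def ShaPrimary : Prop :=
  ∀ c : (Sep K ≃ₐ[K] Sep K) → J ℓ f (Sep K), IsCoc ℓ f c → IsLocal ℓ f R c →
    ∀ m : ℕ, IsZero ℓ f (fun τ => ℓ ^ m • c τ) → IsZero ℓ f c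

/-- The `ℓ`-adic Tate module of the group of the classes which are zero over the completions of `K` at
all maximal ideals of `R` is zero: if the `c m` are classes in this group with `ℓ ^ m c m = 0` and
`ℓ c (m + 1) = c m` then they are zero. -/
def ShaTate : Prop :=
  ∀ c : ℕ → (Sep K ≃ₐ[K] Sep K) → J ℓ f (Sep K), (∀ m, IsCoc ℓ f (c m)) →
    (∀ m, IsLocal ℓ f R (c m)) → (∀ m, IsZero ℓ f (fun τ => ℓ ^ m • c m τ)) →
    (∀ m, IsZero ℓ f (fun τ => ℓ • c (m + 1) τ - c m τ)) → ∀ m, IsZero ℓ f (c m)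

end defs

theorem ShaPrimary.tate {ℓ : ℕ} {K : Type} [Field K] {f : K[X]} {R : Type} [CommRing R]
    [IsDedekindDomain R] [Algebra R K] [IsFractionRing R K] (h : ShaPrimary ℓ f R) :
    ShaTate ℓ f R :=
  fun c h1 h2 h3 _ m => h (c m) (h1 m) (h2 m) m (h3 m)

section conv

variable {ℓ : ℕ} {K : Type} [Field K] (f : K[X]) {L L' : Type} [Field L] [Algebra K L]
  [Field L'] [Algebra K L'] (φ : L →ₐ[K] L')

/-- multiplicative notation -/
def toM (x : J ℓ f L) : Pool.Agent.Y713.Jac.J ℓ f L :=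
  Additive.toMul (α := Pool.Agent.Y713.Jac.J ℓ f L) x

/-- additive notation -/
def ofM (x : Pool.Agent.Y713.Jac.J ℓ f L) : J ℓ f L :=
  Additive.ofMul (α := Pool.Agent.Y713.Jac.J ℓ f L) x

theorem toM_map (x : J ℓ f L) :
    toM f (mapJ ℓ f φ x) = Pool.Agent.Y713.Jac.mapJ ℓ f φ (toM f x) := rfl
theorem toM_sub (x y : J ℓ f L) : toM f (x - y) = toM f x / toM f y := rfl
theorem toM_add (x y : J ℓ f L) : toM f (x + y) = toM f x * toM f y := rfl
theorem toM_nsmul (n : ℕ) (x : J ℓ f L) : toM f (n • x) = toM f x ^ n := rfl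
theorem toM_inj {x y : J ℓ f L} (h : toM f x = toM f y) : x = y := h
theorem toM_ofM (x : Pool.Agent.Y713.Jac.J ℓ f L) : toM f (ofM f x) = x := rfl

theorem loc_conv {E : Type} [Field E] [Algebra K E] {c : (Sep K ≃ₐ[K] Sep K) → J ℓ f (Sep K)}
    (h : LocTriv ℓ f E (Sep E) c) :
    Pool.Agent.Y713.Jac.IsTrivialOver ℓ f E (fun σ => toM f (c σ)) := by
  obtain ⟨ι, P, hP⟩ := h
  refine ⟨ι, toM f P, fun τ σ hτσ => ?_⟩
  have h4 := congrArg (toM f) (hP τ σ hτσ)
  unfold cob at h4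
  rw [toM_map, toM_sub, toM_map] at h4
  exact h4

theorem coc_conv {c : (Sep K ≃ₐ[K] Sep K) → J ℓ f (Sep K)} (h : IsCoc ℓ f c) :
    Pool.Agent.Y713.Jac.IsCocycle ℓ f (fun σ => toM f (c σ)) := by
  refine ⟨h.lc.comp _, fun σ τ => ?_⟩
  have h4 := congrArg (toM f) (h.mul σ τ)
  rw [toM_add, toM_map] at h4
  exact h4

theorem zero_conv {c : (Sep K ≃ₐ[K] Sep K) → J ℓ f (Sep K)} (h : IsZero ℓ f c) :
    Pool.Agent.Y713.Jac.IsCoboundary ℓ f (fun σ => toM f (c σ)) := by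
  obtain ⟨Q, hQ⟩ := h
  refine ⟨toM f Q, fun σ => ?_⟩
  have h4 := congrArg (toM f) (hQ σ)
  unfold cob at h4
  rw [toM_sub, toM_map] at h4
  exact h4

theorem zero_conv' {c : (Sep K ≃ₐ[K] Sep K) → J ℓ f (Sep K)}
    (h : Pool.Agent.Y713.Jac.IsCoboundary ℓ f (fun σ => toM f (c σ))) : IsZero ℓ f c := by
  obtain ⟨Q, hQ⟩ := h
  refine ⟨ofM f Q, fun σ => ?_⟩
  apply toM_inj
  unfold cob
  rw [toM_sub, toM_map]
  exact hQ σ

end conv

theorem ShaPrimary.of {ℓ : ℕ} {K : Type} [Field K] {f : K[X]} {R : Type} [CommRing R]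
    [IsDedekindDomain R] [Algebra R K] [IsFractionRing R K]
    (h : Pool.Agent.Y713.Jac.ShaPrimaryTrivial ℓ f R) : ShaPrimary ℓ f R := by
  intro c hc hl m hm
  apply zero_conv'
  refine h _ m (coc_conv f hc) (fun v => ?_) ?_
  · exact loc_conv f (hl v)
  · have h3 := zero_conv f hm
    exact h3

end Pool.Agent.Q308.Sel
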