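import Pool.Agent.TH115.SK.CntK
import Pool.Agent.TH115.SD.Fam2

/-!
The curves `y ^ 2 = x (x - a) (x - b)` over `k(t)` with `a`, `b`, `a - b` irreducible of the same odd
degree, where no constant multiple of `b` is a square modulo `a`: the arithmetic over `k(t)` of all
the twists by constants.
-/

set_option autoImplicit false
set_option linter.all false

open Polynomial IsDedekindDomain WeierstrassCurve WeierstrassCurve.Affine
open scoped Classical

namespace Pool.Agent.TH115.GD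

section core

variable {k K : Type} [Field k] [Field K] [Algebra k[X] K] [IsFractionRing k[X] K]
  (h2 : (2 : k) ≠ 0) {a b : k[X]} (ha : a ≠ 0) (hb : b ≠ 0) (hab : a ≠ b) (hco : IsCoprime a b)
  (hodd : Odd (max a.natDegree b.natDegree) ∨ TwoOddFactors a b)

include h2 ha hb hab hco hodd in
/-- If there are at most four triples, then there are no points apart from the points of order two and
the double points. -/
theorem Q308.pts_of_card (hd : (Triples2 a b).encard ≤ 2 ^ (0 + 2))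
    (P : Pt (crv (algebraMap k[X] K a) (algebraMap k[X] K b)) K) :
    ∃ T Q : Pt (crv (algebraMap k[X] K a) (algebraMap k[X] K b)) K, T + T = 0 ∧
      P = T + (Q + Q) := by
  have h2K : (2 : K) ≠ 0 := tt h2
  have inj := IsFractionRing.injective k[X] K
  have haK : algebraMap k[X] K a ≠ 0 := by simpa using ha
  have hbK : algebraMap k[X] K b ≠ 0 := by simpa using hb
  have habK : algebraMap k[X] K a ≠ algebraMap k[X] K b := fun h => hab (inj h)
  have hEK := isE (algebraMap k[X] K a) (algebraMap k[X] K b) K h2K haK hbK habK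
  obtain ⟨T, hTinj, hT2⟩ := four_pts h2K haK hbK habK
  -- products of two pairs with the same triple
  have pr : ∀ {x y : K} {r r' : k} {S : k[X]}, r ≠ 0 → r' ≠ 0 → S ≠ 0 →
      SqEq x (algebraMap k[X] K (C r * S)) → SqEq y (algebraMap k[X] K (C r' * S)) →
      SqEq (x * y) (algebraMap k[X] K (C (r * r'))) := by
    rintro x y r r' S hr hr' hS ⟨c, hc, rfl⟩ ⟨c', hc', rfl⟩
    have hSK : algebraMap k[X] K S ≠ 0 := by simpa using hS
    refine ⟨c * c' * algebraMap k[X] K S, mul_ne_zero (mul_ne_zero hc hc') hSK, ?_⟩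
    rw [C_mul, map_mul, map_mul, map_mul]
    ring
  -- the product of two locally soluble pairs with the same triple
  have same : ∀ {x0 x1 y0 y1 : K}, x0 ≠ 0 → x1 ≠ 0 → y0 ≠ 0 → y1 ≠ 0 →
      LSg (F := K) k (crv (algebraMap k[X] K a) (algebraMap k[X] K b)) (algebraMap k[X] K a)
        (algebraMap k[X] K b) x0 x1 →
      LSg (F := K) k (crv (algebraMap k[X] K a) (algebraMap k[X] K b)) (algebraMap k[X] K a)
        (algebraMap k[X] K b) y0 y1 →
      ∀ {r s r' s' : k} {t : k[X] × k[X] × k[X]}, t ∈ Triples2 a b → r ≠ 0 → s ≠ 0 → r' ≠ 0 →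
      s' ≠ 0 → SqEq x0 (algebraMap k[X] K (C r * (t.1 * t.2.1))) →
      SqEq x1 (algebraMap k[X] K (C s * (t.1 * t.2.2))) →
      SqEq y0 (algebraMap k[X] K (C r' * (t.1 * t.2.1))) →
      SqEq y1 (algebraMap k[X] K (C s' * (t.1 * t.2.2))) →
      SqEq (x0 * y0) 1 ∧ SqEq (x1 * y1) 1 := by
    intro x0 x1 y0 y1 hx0 hx1 hy0 hy1 hx hy r s r' s' t ht hr hs hr' hs' e0 e1 f0 f1
    have hm := ht.1
    have hA : t.1 ≠ 0 := hm.1.ne_zero
    have hB : t.2.1 ≠ 0 := hm.2.1.ne_zero
    have hD : t.2.2 ≠ 0 := hm.2.2.1.ne_zero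
    exact const_pair h2 ha hb hab hco hodd (mul_ne_zero hr hr') (mul_ne_zero hs hs')
      (mul_ne_zero hx0 hy0) (mul_ne_zero hx1 hy1)
      (lsg_mul (F := K) (k' := k) h2K haK hbK habK hx hy)
      (pr hr hr' (mul_ne_zero hA hB) e0 f0) (pr hs hs' (mul_ne_zero hA hD) e1 f1)
  -- the triple of a point
  have trip : ∀ R : Pt (crv (algebraMap k[X] K a) (algebraMap k[X] K b)) K,
      ∃ t ∈ Triples2 a b, ∃ r s : k, r ≠ 0 ∧ s ≠ 0 ∧
      SqEq (d0 (algebraMap k[X] K a) (algebraMap k[X] K b) R)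
        (algebraMap k[X] K (C r * (t.1 * t.2.1))) ∧
      SqEq (d1 (algebraMap k[X] K a) (algebraMap k[X] K b) R)
        (algebraMap k[X] K (C s * (t.1 * t.2.2))) := by
    intro R
    obtain ⟨A, B, D, r, s, ht, hc, e0, e1⟩ := selK h2 ha hb hab hco (d0_ne hEK R) (d1_ne hEK R)
      (lsg_ptK h2 ha hb hab R)
    exact ⟨(A, B, D), ⟨ht, r, s, hc⟩, r, s, hc.r_ne, hc.s_ne, e0, e1⟩
  choose Ψ hΨ1 ρ σ hρ hσ hΨ2 hΨ3 using trip
  have half : ∀ R R' : Pt (crv (algebraMap k[X] K a) (algebraMap k[X] K b)) K, Ψ R = Ψ R' →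
      ∃ Q : Pt (crv (algebraMap k[X] K a) (algebraMap k[X] K b)) K, Q + Q = R + R' := by
    intro R R' h
    have e2 := hΨ2 R'
    have e3 := hΨ3 R'
    rw [← h] at e2 e3
    obtain ⟨r0, r1⟩ := same (d0_ne hEK _) (d1_ne hEK _) (d0_ne hEK _) (d1_ne hEK _)
      (lsg_ptK h2 ha hb hab _) (lsg_ptK h2 ha hb hab _) (hΨ1 R) (hρ R) (hσ R)
      (hρ R') (hσ R') (hΨ2 R) (hΨ3 R) e2 e3
    obtain ⟨f0, f1⟩ := dK_add h2 ha hb hab R R'
    obtain ⟨Q, hQ⟩ := half_F (F := K) h2K haK hbK habK (R + R') (f0.trans r0) (f1.trans r1)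
    exact ⟨Q, hQ⟩
  have hΨinj : Function.Injective (fun i : Fin 4 => Ψ (T i)) := by
    intro i i' h
    obtain ⟨Q, hQ⟩ := half _ _ h
    have hTT : (T i + T i') + (T i + T i') = 0 := by
      rw [add_add_add_comm, hT2, hT2, add_zero]
    have h8 : T i + T i' = 0 := by
      have sq2 : ∀ {y : K}, y ≠ 0 → SqEq (y * y) 1 := fun hy => ⟨_, hy, by rw [mul_one, pow_two]⟩
      obtain ⟨g0, g1⟩ := dK_add h2 ha hb hab Q Q
      rw [hQ] at g0 g1
      exact tor_zero h2 ha hb hab hodd hTT (g0.trans (sq2 (d0_ne hEK _)))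
        (g1.trans (sq2 (d1_ne hEK _)))
    have h9 : T i = T i' := by
      have : T i' = -T i' := (neg_eq_of_add_eq_zero_left (hT2 i')).symm
      rw [this]
      exact eq_neg_of_add_eq_zero_left h8
    exact hTinj h9
  have hcard : (Set.range (fun i : Fin 4 => Ψ (T i))).encard = 2 ^ (0 + 2) := by
    rw [← Set.image_univ, hΨinj.encard_image, Set.encard_univ]
    rw [ENat.card_eq_coe_fintype_card, Fintype.card_fin]
    norm_num
  have hrange : Set.range (fun i : Fin 4 => Ψ (T i)) = Triples2 a b := by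
    apply (Set.finite_range _).eq_of_subset_of_encard_le
    · rintro _ ⟨x, rfl⟩
      exact hΨ1 _
    · rw [hcard]; exact hd
  have hP := hΨ1 P
  rw [← hrange] at hP
  obtain ⟨i, hi⟩ := hP
  obtain ⟨Q, hQ⟩ := half P (T i) hi.symm
  refine ⟨T i, Q, hT2 i, ?_⟩
  rw [hQ, add_comm P, ← add_assoc, hT2, zero_add]

end core

section gen

variable {k K : Type} [Field k] [Field K] [Algebra k[X] K] [IsFractionRing k[X] K]

/-- **All the twists by constants.** -/
theorem Q308.generic_twists (h2 : (2 : k) ≠ 0) {a b : k[X]} (ha : Irreducible a)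
    (hb : Irreducible b) (hc : Irreducible (a - b)) (hco : IsCoprime a b) {N : ℕ} (hN : Odd N)
    (dA : a.natDegree = N) (dB : b.natDegree = N) (dC : (a - b).natDegree = N)
    (hsq : ∀ c : k, c ≠ 0 → ¬ SqMod a (C c * b)) {d : k} (hd : d ≠ 0) :
    ShaTwo k (crv (algebraMap k[X] K (C d * a)) (algebraMap k[X] K (C d * b))) ∧
    ∀ P : Pt (crv (algebraMap k[X] K (C d * a)) (algebraMap k[X] K (C d * b))) K,
      ∃ T Q : Pt (crv (algebraMap k[X] K (C d * a)) (algebraMap k[X] K (C d * b))) K,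
        T + T = 0 ∧ P = T + (Q + Q) := by
  have hu : IsUnit (C d : k[X]) := isUnit_C.2 (isUnit_iff_ne_zero.2 hd)
  have irr : ∀ {p : k[X]}, Irreducible p → Irreducible (C d * p) := fun hp =>
    (irreducible_isUnit_mul hu).2 hp
  have hsub : C d * a - C d * b = C d * (a - b) := by ring
  have hc' : Irreducible (C d * a - C d * b) := by rw [hsub]; exact irr hc
  have hco' : IsCoprime (C d * a) (C d * b) := (isCoprime_mul_unit_left hu a b).2 hco
  have dA' : (C d * a).natDegree = N := by rw [natDegree_C_mul hd, dA]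
  have dB' : (C d * b).natDegree = N := by rw [natDegree_C_mul hd, dB]
  have dC' : (C d * a - C d * b).natDegree = N := by rw [hsub, natDegree_C_mul hd, dC]
  have hab' : C d * a ≠ C d * b := fun h => hc'.ne_zero (by rw [h, sub_self])
  have hodd : Odd (max (C d * a).natDegree (C d * b).natDegree) ∨
      TwoOddFactors (C d * a) (C d * b) :=
    Or.inl (by rw [dA', dB', max_self]; exact hN)
  have hs : ¬ Survives (C d * a) (C d * b) := by
    rintro ⟨⟨z, hz⟩, -, -⟩
    set e := (C d * b).leadingCoeff * (C d * a - C d * b).leadingCoeff with he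
    have he0 : e ≠ 0 := mul_ne_zero (leadingCoeff_ne_zero.2 (irr hb).ne_zero)
      (leadingCoeff_ne_zero.2 hc'.ne_zero)
    refine hsq (e * d) (mul_ne_zero he0 hd) ⟨z, ?_⟩
    have h3 := (dvd_mul_left a (C d)).trans hz
    rw [C_mul, mul_assoc]
    exact h3
  have hcard := gen_card (irr ha) (irr hb) hc' hco' hN dA' dB' dC' hs
  refine ⟨shaTwo_of_rank h2 (irr ha).ne_zero (irr hb).ne_zero hab' hco' hodd hcard
    (fun i => i.elim0) ?_, fun P => ?_⟩
  · rintro S ⟨i, _⟩
    exact i.elim0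
  · exact Q308.pts_of_card h2 (irr ha).ne_zero (irr hb).ne_zero hab' hco' hodd hcard P

end gen

end Pool.Agent.TH115.GD
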